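import Pool.Agent.Lib.MP_19e880_co_G2.IdnComp

/-!
The exact identity.
-/

set_option autoImplicit false
set_option linter.unusedSectionVars false
set_option linter.unusedVariables false

namespace Pool.Agent.MP19e880.G2.Idn

open Pool.Agent.MP19e880.Low

variable {V : Type} [DecidableEq V]

/-- The local quantity `Λ` of the identity, for the set `C` and the vertex `r`. -/
noncomputable def Lam (A : V → V → Prop) (U C : Finset V) (r : V) (P Q : Finset (Finset V)) : ℤ :=
  ∑ x ∈ nb A C r, ((ct A Q x : ℤ) - 1) +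
  ∑ y ∈ nb A U r \ nb A C r, ((ct A P y + ct A Q y - 1 : ℕ) : ℤ) +
  ∑ y ∈ na A (U \ C) r, (((nb A (nb A C r) y).card + ct A Q y - 1 : ℕ) : ℤ)

theorem sum_nb_comm (A : V → V → Prop) (hs : ∀ x y, A x y → A y x) (X Y : Finset V) :
    ∑ x ∈ X, ((nb A Y x).card : ℤ) = ∑ y ∈ Y, ((nb A X y).card : ℤ) := by
  classical
  have h1 : ∀ (X Y : Finset V) (x : V), ((nb A Y x).card : ℤ) = ∑ y ∈ Y, if A x y then 1 else 0 := by
    intro X Y x
    unfold nb
    rw [Finset.card_filter]
    push_cast
    rfl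
  rw [Finset.sum_congr rfl fun x _ => h1 X Y x, Finset.sum_comm]
  refine Finset.sum_congr rfl fun y _ => ?_
  rw [h1 Y X y]
  refine Finset.sum_congr rfl fun x _ => ?_
  by_cases h : A x y
  · rw [if_pos h, if_pos (hs _ _ h)]
  · rw [if_neg h, if_neg fun h' => h (hs _ _ h')]

theorem nb_union (A : V → V → Prop) (X Y : Finset V) (x : V) (hXY : Disjoint X Y) :
    ((nb A (X ∪ Y) x).card : ℤ) = (nb A X x).card + (nb A Y x).card := by
  classical
  have h1 : nb A (X ∪ Y) x = nb A X x ∪ nb A Y x := by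
    unfold nb
    rw [Finset.filter_union]
  rw [h1, Finset.card_union_of_disjoint]
  · push_cast
    rfl
  · rw [Finset.disjoint_left] at hXY ⊢
    intro y hy hy2
    exact hXY (mem_nb.mp hy).1 (mem_nb.mp hy2).1

/-- The number of edges touching `X ∪ Y`. -/
theorem E2_union (A : V → V → Prop) (hs : ∀ x y, A x y → A y x) (U X Y : Finset V)
    (hXY : Disjoint X Y) :
    E2 A U (X ∪ Y) = E2 A U X + E2 A U Y - 2 * ∑ x ∈ X, ((nb A Y x).card : ℤ) := by
  classical
  unfold E2
  rw [Finset.sum_union hXY]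
  have h1 : ∀ x, (2 * ((nb A U x).card : ℤ) - (nb A (X ∪ Y) x).card) =
      (2 * ((nb A U x).card : ℤ) - (nb A X x).card) - (nb A Y x).card := by
    intro x
    rw [nb_union A X Y x hXY]
    ring
  have h2 : ∀ x, (2 * ((nb A U x).card : ℤ) - (nb A (X ∪ Y) x).card) =
      (2 * ((nb A U x).card : ℤ) - (nb A Y x).card) - (nb A X x).card := by
    intro x
    rw [nb_union A X Y x hXY]
    ring
  have h3 : ∑ x ∈ X, (2 * ((nb A U x).card : ℤ) - (nb A (X ∪ Y) x).card) =
      ∑ x ∈ X, (2 * ((nb A U x).card : ℤ) - (nb A X x).card) - ∑ x ∈ X, ((nb A Y x).card : ℤ) := by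
    rw [← Finset.sum_sub_distrib]
    exact Finset.sum_congr rfl fun x _ => h1 x
  have h4 : ∑ x ∈ Y, (2 * ((nb A U x).card : ℤ) - (nb A (X ∪ Y) x).card) =
      ∑ x ∈ Y, (2 * ((nb A U x).card : ℤ) - (nb A Y x).card) - ∑ x ∈ Y, ((nb A X x).card : ℤ) := by
    rw [← Finset.sum_sub_distrib]
    exact Finset.sum_congr rfl fun x _ => h2 x
  rw [h3, h4, sum_nb_comm A hs Y X]
  ring

/-- The exact identity. -/
theorem ident (A : V → V → Prop) (hs : ∀ x y, A x y → A y x) (hi : ∀ x, ¬ A x x)
    (U C : Finset V) (r : V) (P Q : Finset (Finset V)) (hC : C ⊆ U) (hrU : r ∈ U) (hrC : r ∉ C)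
    (hr : To A C r) (hP : Cps A (nb A C r) P) (hQ : Cps A (na A C r) Q) (c : ℤ) :
    hh c A U C = ∑ X ∈ Q, hh c A U X + ∑ X ∈ P, hh (c - 2) A (nb A U r) X - 2 +
      2 * Lam A U C r P Q := by
  classical
  -- the pieces
  have hCe : C = na A C r ∪ nb A C r := by
    ext y
    rw [Finset.mem_union, mem_na, mem_nb]
    constructor
    · intro hy
      by_cases h : A r y
      · exact Or.inr ⟨hy, h⟩
      · refine Or.inl ⟨hy, ?_, h⟩
        rintro rfl
        exact hrC hy
    · rintro (h | h)
      · exact h.1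
      · exact h.1
  have hdisj : Disjoint (na A C r) (nb A C r) := by
    rw [Finset.disjoint_left]
    intro y hy hy2
    exact (mem_na.mp hy).2.2 (mem_nb.mp hy2).2
  -- the sum over `Q`
  have hsQ : ∑ X ∈ Q, hh c A U X = E2 A U (na A C r) - 2 * (c + 1) * (na A C r).card -
      2 * ∑ y ∈ U \ na A C r, (ct A Q y : ℤ) := by
    unfold hh
    rw [Finset.sum_sub_distrib, Finset.sum_sub_distrib, ← hQ.E2_eq, ← Finset.mul_sum,
      ← Finset.mul_sum, ← hQ.card_eq, hQ.nS_sum]
  have hsP : ∑ X ∈ P, hh (c - 2) A (nb A U r) X = E2 A (nb A U r) (nb A C r) -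
      2 * (c - 1) * (nb A C r).card - 2 * ∑ y ∈ nb A U r \ nb A C r, (ct A P y : ℤ) := by
    unfold hh
    rw [Finset.sum_sub_distrib, Finset.sum_sub_distrib, ← hP.E2_eq, ← Finset.mul_sum,
      ← Finset.mul_sum, ← hP.card_eq, hP.nS_sum]
    ring
  -- the edges
  have hE : E2 A U C = E2 A U (na A C r) + E2 A (nb A U r) (nb A C r) + 2 * (nb A C r).card +
      2 * ∑ y ∈ na A (U \ C) r, ((nb A (nb A C r) y).card : ℤ) := by
    conv_lhs => rw [hCe]
    rw [E2_union A hs U _ _ hdisj]
    have h1 : ∀ x ∈ nb A C r, ((nb A U x).card : ℤ) = (nb A (nb A U r) x).card + 1 +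
        (nb A (na A C r) x).card + (nb A (na A (U \ C) r) x).card := by
      intro x hx
      rw [mem_nb] at hx
      have h2 : U = (nb A U r ∪ {r}) ∪ (na A C r ∪ na A (U \ C) r) := by
        ext y
        rw [Finset.mem_union, Finset.mem_union, Finset.mem_union, mem_nb, mem_na, mem_na,
          Finset.mem_singleton, Finset.mem_sdiff]
        constructor
        · intro hy
          by_cases h3 : A r y
          · exact Or.inl (Or.inl ⟨hy, h3⟩)
          · by_cases h4 : y = r
            · exact Or.inl (Or.inr h4)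
            · by_cases h5 : y ∈ C
              · exact Or.inr (Or.inl ⟨h5, h4, h3⟩)
              · exact Or.inr (Or.inr ⟨⟨hy, h5⟩, h4, h3⟩)
        · rintro ((h | h) | (h | h))
          · exact h.1
          · rw [h]
            exact hrU
          · exact hC h.1
          · exact h.1.1
      have d1 : Disjoint (nb A U r ∪ {r}) (na A C r ∪ na A (U \ C) r) := by
        rw [Finset.disjoint_left]
        intro y hy hy2
        rw [Finset.mem_union, mem_nb, Finset.mem_singleton] at hy
        rw [Finset.mem_union, mem_na, mem_na] at hy2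
        rcases hy with h | h <;> rcases hy2 with h' | h'
        · exact h'.2.2 h.2
        · exact h'.2.2 h.2
        · exact h'.2.1 h
        · exact h'.2.1 h
      have d2 : Disjoint (nb A U r) {r} := by
        rw [Finset.disjoint_singleton_right, mem_nb]
        exact fun h' => hi r h'.2
      have d3 : Disjoint (na A C r) (na A (U \ C) r) := by
        rw [Finset.disjoint_left]
        intro y hy hy2
        exact (Finset.mem_sdiff.mp (mem_na.mp hy2).1).2 (mem_na.mp hy).1
      have h3 : ((nb A {r} x).card : ℤ) = 1 := by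
        have : nb A {r} x = {r} := by
          ext y
          rw [mem_nb, Finset.mem_singleton]
          constructor
          · exact fun h' => h'.1
          · rintro rfl
            exact ⟨rfl, hs _ _ hx.2⟩
        rw [this]
        simp
      conv_lhs => rw [h2]
      rw [nb_union A _ _ x d1, nb_union A _ _ x d2, nb_union A _ _ x d3, h3]
      ring
    have h4 : E2 A U (nb A C r) = E2 A (nb A U r) (nb A C r) + 2 * (nb A C r).card +
        2 * ∑ x ∈ nb A C r, ((nb A (na A C r) x).card : ℤ) +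
        2 * ∑ x ∈ nb A C r, ((nb A (na A (U \ C) r) x).card : ℤ) := by
      unfold E2
      have h5 : ∀ x ∈ nb A C r, (2 * ((nb A U x).card : ℤ) - (nb A (nb A C r) x).card) =
          (2 * ((nb A (nb A U r) x).card : ℤ) - (nb A (nb A C r) x).card) + 2 +
          2 * ((nb A (na A C r) x).card : ℤ) + 2 * ((nb A (na A (U \ C) r) x).card : ℤ) := by
        intro x hx
        rw [h1 x hx]
        ring
      rw [Finset.sum_congr rfl h5, Finset.sum_add_distrib, Finset.sum_add_distrib,
        Finset.sum_add_distrib, ← Finset.mul_sum, ← Finset.mul_sum, Finset.sum_const]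
      simp only [nsmul_eq_mul]
      ring
    rw [h4, sum_nb_comm A hs (na A C r) (nb A C r), sum_nb_comm A hs (nb A C r) (na A (U \ C) r)]
    ring
  -- cardinalities
  have hcard : (C.card : ℤ) = (na A C r).card + (nb A C r).card := by
    conv_lhs => rw [hCe]
    rw [Finset.card_union_of_disjoint hdisj]
    push_cast
    rfl
  -- the outer parts
  have hS1 : nb A U r \ nb A C r = nb A (U \ C) r := by
    ext y
    rw [Finset.mem_sdiff, mem_nb, mem_nb, mem_nb, Finset.mem_sdiff]
    tauto
  have hout : U \ C = (nb A U r \ nb A C r ∪ {r}) ∪ na A (U \ C) r := by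
    rw [hS1]
    ext y
    rw [Finset.mem_union, Finset.mem_union, mem_nb, mem_na, Finset.mem_singleton]
    constructor
    · intro hy
      by_cases h3 : A r y
      · exact Or.inl (Or.inl ⟨hy, h3⟩)
      · by_cases h4 : y = r
        · exact Or.inl (Or.inr h4)
        · exact Or.inr ⟨hy, h4, h3⟩
    · rintro ((h | h) | h)
      · exact h.1
      · rw [h, Finset.mem_sdiff]
        exact ⟨hrU, hrC⟩
      · exact h.1
  have e1 : Disjoint (nb A U r \ nb A C r ∪ {r}) (na A (U \ C) r) := by
    rw [Finset.disjoint_left]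
    intro y hy hy2
    rw [Finset.mem_union, Finset.mem_sdiff, mem_nb, Finset.mem_singleton] at hy
    rw [mem_na] at hy2
    rcases hy with h | h
    · exact hy2.2.2 h.1.2
    · exact hy2.2.1 h
  have e2 : Disjoint (nb A U r \ nb A C r) {r} := by
    rw [Finset.disjoint_singleton_right, Finset.mem_sdiff, mem_nb]
    exact fun h' => hi r h'.1.2
  have hout2 : U \ na A C r = nb A C r ∪ (U \ C) := by
    ext y
    rw [Finset.mem_sdiff, Finset.mem_union, Finset.mem_sdiff, mem_na, mem_nb]
    constructor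
    · rintro ⟨h1, h2⟩
      by_cases h3 : y ∈ C
      · left
        refine ⟨h3, ?_⟩
        by_contra h4
        apply h2
        refine ⟨h3, ?_, h4⟩
        rintro rfl
        exact hrC h3
      · exact Or.inr ⟨h1, h3⟩
    · rintro (h | h)
      · exact ⟨hC h.1, fun h' => h'.2.2 h.2⟩
      · exact ⟨h.1, fun h' => h.2 h'.1⟩
  have e3 : Disjoint (nb A C r) (U \ C) := by
    rw [Finset.disjoint_left]
    intro y hy hy2
    exact (Finset.mem_sdiff.mp hy2).2 (mem_nb.mp hy).1
  have hctr : ct A Q r = 0 := by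
    by_contra h0
    obtain ⟨X, hX, x, hx, hxr⟩ := ct_pos.mp (Nat.pos_of_ne_zero h0)
    exact (mem_na.mp (hQ.sub X hX hx)).2.2 (hs _ _ hxr)
  have hsum : ∀ f : V → ℤ, ∑ y ∈ U \ C, f y = ∑ y ∈ nb A U r \ nb A C r, f y + f r +
      ∑ y ∈ na A (U \ C) r, f y := by
    intro f
    conv_lhs => rw [hout]
    rw [Finset.sum_union e1, Finset.sum_union e2, Finset.sum_singleton]
  have hnS : ((nS A U C).card : ℤ) = ∑ y ∈ U \ C, (if 0 < ct A P y + ct A Q y then 1 else 0) := by
    unfold nS
    rw [Finset.card_filter]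
    push_cast
    refine Finset.sum_congr rfl fun y _ => ?_
    have h1 : To A C y ↔ 0 < ct A P y + ct A Q y := by
      have h2 : To A C y ↔ To A (nb A C r) y ∨ To A (na A C r) y := by
        constructor
        · rintro ⟨x, hx, hxy⟩
          rw [hCe, Finset.mem_union] at hx
          rcases hx with hx | hx
          · exact Or.inr ⟨x, hx, hxy⟩
          · exact Or.inl ⟨x, hx, hxy⟩
        · rintro (⟨x, hx, hxy⟩ | ⟨x, hx, hxy⟩)
          · exact ⟨x, (mem_nb.mp hx).1, hxy⟩
          · exact ⟨x, (mem_na.mp hx).1, hxy⟩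
      rw [h2, hP.to_iff, hQ.to_iff]
      omega
    by_cases h2 : To A C y
    · rw [if_pos h2, if_pos (h1.mp h2)]
    · rw [if_neg h2, if_neg fun h' => h2 (h1.mpr h')]
  have hr1 : 0 < ct A P r + ct A Q r := by
    obtain ⟨x, hx, hxr⟩ := hr
    have : 0 < ct A P r := hP.to_iff.mp ⟨x, mem_nb.mpr ⟨hx, hs _ _ hxr⟩, hxr⟩
    omega
  have hn : ∀ y, 0 < ct A P y ↔ 0 < (nb A (nb A C r) y).card := by
    intro y
    rw [← hP.to_iff, Finset.card_pos]
    constructor
    · rintro ⟨x, hx, hxy⟩
      exact ⟨x, mem_nb.mpr ⟨hx, hs _ _ hxy⟩⟩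
    · rintro ⟨x, hx⟩
      rw [mem_nb] at hx
      exact ⟨x, hx.1, hs _ _ hx.2⟩
  have hstep : hh c A U C = E2 A U C - 2 * (c + 1) * C.card - 2 * (nS A U C).card := rfl
  rw [hctr] at hr1
  rw [hstep, hsQ, hsP, hE, hcard, hnS, hout2, Finset.sum_union e3, hsum, hsum, hctr, if_pos hr1]
  unfold Lam
  have k1 : ∑ x ∈ nb A C r, ((ct A Q x : ℤ) - 1) = ∑ x ∈ nb A C r, (ct A Q x : ℤ) -
      (nb A C r).card := by
    rw [Finset.sum_sub_distrib, Finset.sum_const]
    simp
  have k2 : ∑ y ∈ nb A U r \ nb A C r, ((ct A P y + ct A Q y - 1 : ℕ) : ℤ) =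
      ∑ y ∈ nb A U r \ nb A C r, (ct A P y : ℤ) + ∑ y ∈ nb A U r \ nb A C r, (ct A Q y : ℤ) -
      ∑ y ∈ nb A U r \ nb A C r, (if 0 < ct A P y + ct A Q y then 1 else 0) := by
    rw [← Finset.sum_add_distrib, ← Finset.sum_sub_distrib]
    refine Finset.sum_congr rfl fun y _ => ?_
    split_ifs with h
    · push_cast [Nat.cast_sub (show 1 ≤ ct A P y + ct A Q y from h)]
      ring
    · have : ct A P y + ct A Q y = 0 := by omega
      rw [show ct A P y + ct A Q y - 1 = 0 by omega]
      have h2 : ct A P y = 0 := by omega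
      have h3 : ct A Q y = 0 := by omega
      rw [h2, h3]
      simp
  have k3 : ∑ y ∈ na A (U \ C) r, (((nb A (nb A C r) y).card + ct A Q y - 1 : ℕ) : ℤ) =
      ∑ y ∈ na A (U \ C) r, ((nb A (nb A C r) y).card : ℤ) +
      ∑ y ∈ na A (U \ C) r, (ct A Q y : ℤ) -
      ∑ y ∈ na A (U \ C) r, (if 0 < ct A P y + ct A Q y then 1 else 0) := by
    rw [← Finset.sum_add_distrib, ← Finset.sum_sub_distrib]
    refine Finset.sum_congr rfl fun y _ => ?_
    have hny := hn y
    split_ifs with h
    · push_cast [Nat.cast_sub (show 1 ≤ (nb A (nb A C r) y).card + ct A Q y by omega)]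
      ring
    · have h2 : (nb A (nb A C r) y).card = 0 := by omega
      have h3 : ct A Q y = 0 := by omega
      rw [h2, h3]
      simp
  rw [k1, k2, k3]
  push_cast
  ring

end Pool.Agent.MP19e880.G2.Idn
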