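import Pool.Agent.Lib.MP_19e880_co_G2.Defs
import Pool.Agent.Lib.MP_19e880_co_G2.IdnIdent

/-!
The exact identity in terms of `H` and `Lam`.
-/

set_option autoImplicit false
set_option linter.unusedSectionVars false
set_option linter.unusedVariables false

namespace Pool.Agent.MP19e880.G2

open Pool.Agent.MP19e880.Low

variable {V : Type} [DecidableEq V] {A : V → V → Prop}

theorem Dec.toCps {C : Finset V} {𝒞 : Finset (Finset V)} (h : Dec A C 𝒞) : Idn.Cps A C 𝒞 where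
  sub := fun B hB x hx => (h.mem x).mpr ⟨B, hB, hx⟩
  ne := h.ne
  cn := h.cn
  sep := h.sep
  cov := fun x hx => (h.mem x).mp hx

theorem H_eq_hh (m : ℕ) {U C : Finset V} (hC : C ⊆ U) :
    H A m U C = Idn.hh (2 * (m : ℤ) - 4) A U C := by
  classical
  unfold H Idn.hh Idn.E2
  have h1 : ∀ x ∈ C, (((nb A U x).card : ℤ) + ((nb A (U \ C) x).card : ℤ)) =
      2 * ((nb A U x).card : ℤ) - (nb A C x).card := by
    intro x _
    have h2 : U = C ∪ (U \ C) := (Finset.union_sdiff_of_subset hC).symm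
    have h3 := Idn.nb_union A C (U \ C) x Finset.disjoint_sdiff
    rw [← h2] at h3
    linarith
  rw [Finset.sum_congr rfl h1]
  have h4 : oN A U C = Idn.nS A U C := rfl
  rw [h4]
  ring

/-- The exact identity. -/
theorem H_total (hs : ∀ x y, A x y → A y x) (hi : ∀ x, ¬ A x x) (m : ℕ) {U C : Finset V}
    (hC : C ⊆ U) {r : V} (hr : r ∈ U) (hrC : r ∉ C) (had : ad A C r)
    {𝒞 𝒳 : Finset (Finset V)} (h𝒞 : Dec A (C \ nb A C r) 𝒞) (h𝒳 : Dec A (nb A C r) 𝒳) :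
    H A (m + 1) U C = ∑ B ∈ 𝒞, H A (m + 1) U B + ∑ B ∈ 𝒳, H A m (nb A U r) B - 2
      + 2 * Lam A (nb A U r) (na A U r \ C) (nb A C r) 𝒞 𝒳 := by
  classical
  have e1 : C \ nb A C r = na A C r := by
    ext y
    rw [Finset.mem_sdiff, mem_nb, mem_na]
    constructor
    · rintro ⟨h1, h2⟩
      refine ⟨h1, ?_, fun h3 => h2 ⟨h1, h3⟩⟩
      rintro rfl
      exact hrC h1
    · rintro ⟨h1, h2, h3⟩
      exact ⟨h1, fun h4 => h3 h4.2⟩
  have e2 : na A U r \ C = na A (U \ C) r := by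
    ext y
    rw [Finset.mem_sdiff, mem_na, mem_na, Finset.mem_sdiff]
    tauto
  rw [e1] at h𝒞
  have hQ := h𝒞.toCps
  have hP := h𝒳.toCps
  have key := Idn.ident A hs hi U C r 𝒳 𝒞 hC hr hrC had hP hQ (2 * ((m + 1 : ℕ) : ℤ) - 4)
  have k1 : ∀ B ∈ 𝒞, H A (m + 1) U B = Idn.hh (2 * ((m + 1 : ℕ) : ℤ) - 4) A U B := by
    intro B hB
    exact H_eq_hh (m + 1) ((hQ.sub B hB).trans fun y hy => hC (mem_na.mp hy).1)
  have k2 : ∀ B ∈ 𝒳, H A m (nb A U r) B = Idn.hh (2 * ((m + 1 : ℕ) : ℤ) - 4 - 2) A (nb A U r) B := by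
    intro B hB
    rw [H_eq_hh m ((hP.sub B hB).trans fun y hy =>
      mem_nb.mpr ⟨hC (mem_nb.mp hy).1, (mem_nb.mp hy).2⟩)]
    congr 1
    push_cast
    ring
  rw [H_eq_hh (m + 1) hC, key, Finset.sum_congr rfl k1, Finset.sum_congr rfl k2, e2]
  rfl

end Pool.Agent.MP19e880.G2
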