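import Pool.Agent.Lib.MP_19e880_co_G2.Comps
import Pool.Agent.Lib.MP_19e880_co_G2.Ident
import Pool.Agent.Lib.MP_19e880_co.LowD

/-!
The contraction inequality from the local lemma, and its consequence for the sum of the degrees.
-/

set_option autoImplicit false
set_option linter.unusedSectionVars false
set_option linter.unusedVariables false

namespace Pool.Agent.MP19e880.G2

open Pool.Agent.MP19e880.Low

variable {V : Type} [DecidableEq V] {A : V → V → Prop} {F : ℕ → Finset V → Prop}

theorem mem_oN {U C : Finset V} {y : V} : y ∈ oN A U C ↔ y ∈ U ∧ y ∉ C ∧ ad A C y := by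
  classical
  unfold oN
  rw [Finset.mem_filter, Finset.mem_sdiff, and_assoc]

/-- The local lemma. -/
def LemmaL (A : V → V → Prop) (F : ℕ → Finset V → Prop) : Prop :=
  ∀ (m : ℕ) (U C : Finset V) (r a : V) (𝒞 𝒳 : Finset (Finset V)), F (m + 2) U → C ⊆ U →
    Cn A C → r ∈ U → r ∉ C → ad A C r → a ∈ U → a ∉ C → (∀ x ∈ C, ¬ A x a) → A r a →
    Dec A (C \ nb A C r) 𝒞 → Dec A (nb A C r) 𝒳 →
    (2 * (m : ℤ) + 1) * ((𝒞.card : ℤ) - 1) + (2 * (m : ℤ) - 1) * (𝒳.card : ℤ) + 1 ≤
      Lam A (nb A U r) (na A U r \ C) (nb A C r) 𝒞 𝒳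

/-- The contraction inequality. -/
theorem contraction (h : Fam A F) (hL : LemmaL A F) : ∀ (m : ℕ) (U C : Finset V), F (m + 1) U →
    C ⊆ U → C.Nonempty → Cn A C → (∃ a ∈ U, a ∉ C ∧ ∀ x ∈ C, ¬ A x a) →
    -(4 * ((m + 1 : ℕ) : ℤ) - 6) ≤ H A (m + 1) U C := by
  classical
  intro m
  induction m with
  | zero =>
    intro U C hU hC hne hcn ha
    obtain ⟨a, haU, haC, hna⟩ := ha
    obtain ⟨p, q, hpq, hA, hUe⟩ := h.one U hU
    obtain ⟨c, hc⟩ := hne
    have hno : ∀ x ∈ U, ∀ y ∈ U, ¬ A x y := by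
      intro x hx y hy
      rw [hUe, Finset.mem_insert, Finset.mem_singleton] at hx hy
      rcases hx with rfl | rfl <;> rcases hy with rfl | rfl
      · exact h.irr _
      · exact hA
      · exact fun h' => hA (h.symm _ _ h')
      · exact h.irr _
    have hCc : C = {c} := by
      ext y
      rw [Finset.mem_singleton]
      constructor
      · intro hy
        by_contra hyc
        have h1 : ({y, c, a} : Finset V) ⊆ U := by
          intro z hz
          rw [Finset.mem_insert, Finset.mem_insert, Finset.mem_singleton] at hz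
          rcases hz with rfl | rfl | rfl
          · exact hC hy
          · exact hC hc
          · exact haU
        have h2 := Finset.card_le_card h1
        rw [h.card_one U hU, Finset.card_insert_of_notMem, Finset.card_pair] at h2
        · omega
        · rintro rfl
          exact haC hc
        · rw [Finset.mem_insert, Finset.mem_singleton, not_or]
          refine ⟨hyc, ?_⟩
          rintro rfl
          exact haC hy
      · rintro rfl
        exact hc
    have h1 : nb A U c = ∅ := by
      rw [Finset.eq_empty_iff_forall_notMem]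
      intro y hy
      rw [mem_nb] at hy
      exact hno c (hC hc) y hy.1 hy.2
    have h2 : nb A (U \ C) c = ∅ := by
      rw [Finset.eq_empty_iff_forall_notMem]
      intro y hy
      rw [mem_nb, Finset.mem_sdiff] at hy
      exact hno c (hC hc) y hy.1.1 hy.2
    have h3 : oN A U C = ∅ := by
      rw [Finset.eq_empty_iff_forall_notMem]
      intro y hy
      rw [mem_oN] at hy
      obtain ⟨hyU, _, x, hx, hxy⟩ := hy
      exact hno x (hC hx) y hyU hxy
    unfold H
    rw [h3]
    subst hCc
    rw [Finset.sum_singleton, h1, h2]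
    simp
  | succ m ih =>
    intro U C hU
    induction C using Finset.strongInduction with
    | _ C ih2 =>
      intro hC hne hcn ha
      obtain ⟨a, haU, haC, hna⟩ := ha
      -- the vertex `r`
      have hex : ∃ r ∈ U, r ∉ C ∧ ad A C r ∧ ∃ b ∈ U, b ∉ C ∧ (∀ x ∈ C, ¬ A x b) ∧ A r b := by
        obtain ⟨c, hc⟩ := hne
        obtain ⟨r, hr, b, hb, hbX, hrb⟩ := h.conn m U hU (C ∪ oN A U C)
          (Finset.union_subset hC fun y hy => (mem_oN.mp hy).1)
          ⟨c, Finset.mem_union_left _ hc⟩ (by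
            intro h'
            rw [← h', Finset.mem_union, mem_oN] at haU
            rcases haU with h1 | ⟨_, _, x, hx, hxa⟩
            · exact haC h1
            · exact hna x hx hxa)
        rw [Finset.mem_union, mem_oN, not_or] at hbX
        have hbn : ∀ x ∈ C, ¬ A x b := fun x hx hxb => hbX.2 ⟨hb, hbX.1, x, hx, hxb⟩
        rw [Finset.mem_union, mem_oN] at hr
        rcases hr with hr | hr
        · exact absurd hrb (hbn r hr)
        · exact ⟨r, hr.1, hr.2.1, hr.2.2, b, hb, hbX.1, hbn, hrb⟩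
      obtain ⟨r, hrU, hrC, had, b, hbU, hbC, hbn, hrb⟩ := hex
      obtain ⟨𝒞, h𝒞⟩ := exists_dec h.symm (C \ nb A C r)
      obtain ⟨𝒳, h𝒳⟩ := exists_dec h.symm (nb A C r)
      have key := H_total h.symm h.irr (m + 1) hC hrU hrC had h𝒞 h𝒳
      have hlam := hL m U C r b 𝒞 𝒳 hU hC hcn hrU hrC had hbU hbC hbn hrb h𝒞 h𝒳
      have hXn : (nb A C r).Nonempty := by
        obtain ⟨x, hx, hxr⟩ := had
        exact ⟨x, mem_nb.mpr ⟨hx, h.symm _ _ hxr⟩⟩
      have hss : C \ nb A C r ⊂ C := Finset.sdiff_ssubset (fun y hy => (mem_nb.mp hy).1) hXn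
      have k1 : ∀ B ∈ 𝒞, -(4 * ((m + 1 + 1 : ℕ) : ℤ) - 6) ≤ H A (m + 1 + 1) U B := by
        intro B hB
        have hBs := h𝒞.sub hB
        refine ih2 B (lt_of_le_of_lt hBs hss) ((hBs.trans hss.subset).trans hC) (h𝒞.ne B hB)
          (h𝒞.cn B hB) ⟨a, haU, fun h' => haC (hss.subset (hBs h')),
            fun x hx => hna x (hss.subset (hBs hx))⟩
      have k2 : ∀ B ∈ 𝒳, -(4 * ((m + 1 : ℕ) : ℤ) - 6) ≤ H A (m + 1) (nb A U r) B := by
        intro B hB
        have hBs := h𝒳.sub hB
        refine ih (nb A U r) B (h.link (m + 1) U r hU hrU) ?_ (h𝒳.ne B hB) (h𝒳.cn B hB)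
          ⟨b, mem_nb.mpr ⟨hbU, hrb⟩, fun h' => hbC (mem_nb.mp (hBs h')).1,
            fun x hx => hbn x (mem_nb.mp (hBs hx)).1⟩
        intro y hy
        have := mem_nb.mp (hBs hy)
        exact mem_nb.mpr ⟨hC this.1, this.2⟩
      have s1 := Finset.card_nsmul_le_sum 𝒞 (fun B => H A (m + 1 + 1) U B) _ k1
      have s2 := Finset.card_nsmul_le_sum 𝒳 (fun B => H A (m + 1) (nb A U r) B) _ k2
      simp only [nsmul_eq_mul] at s1 s2
      rw [key]
      push_cast at s1 s2 hlam ⊢
      nlinarith [s1, s2, hlam]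

/-- The sum of the degrees of a family member and of the link of one of its vertices. -/
theorem dg_link (h : Fam A F) (hL : LemmaL A F) (m : ℕ) (U : Finset V) (v : V)
    (hU : F (m + 2) U) (hv : v ∈ U) :
    4 * ((nb A U v).card : ℤ) + (4 * (m : ℤ) + 2) * ((na A U v).card - 1) + dg A (nb A U v) ≤
      dg A U := by
  classical
  have hn := h.na_nonempty (m + 1) U v hU hv
  have hc := h.mconn (m + 1) U v hU hv
  have key := contraction h hL (m + 1) U (na A U v) hU (fun y hy => (mem_na.mp hy).1) hn hc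
    ⟨v, hv, fun h' => (mem_na.mp h').2.1 rfl, fun x hx hxv =>
      (mem_na.mp hx).2.2 (h.symm _ _ hxv)⟩
  have h1 : oN A U (na A U v) = nb A U v := by
    ext y
    rw [mem_oN, mem_nb, mem_na]
    constructor
    · rintro ⟨h1, h2, x, hx, hxy⟩
      refine ⟨h1, ?_⟩
      by_contra h3
      apply h2
      refine ⟨h1, ?_, h3⟩
      rintro rfl
      exact (mem_na.mp hx).2.2 (h.symm _ _ hxy)
    · rintro ⟨h1, h2⟩
      refine ⟨h1, fun h3 => h3.2.2 h2, ?_⟩
      obtain ⟨z, hz⟩ := h.na_nonempty m (nb A U y) v (h.link (m + 1) U y hU h1)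
        (mem_nb.mpr ⟨hv, h.symm _ _ h2⟩)
      rw [mem_na, mem_nb] at hz
      exact ⟨z, mem_na.mpr ⟨hz.1.1, hz.2⟩, h.symm _ _ hz.1.2⟩
  have h2 : ∀ x ∈ na A U v, nb A (U \ na A U v) x = nb A (nb A U v) x := by
    intro x hx
    ext y
    rw [mem_nb, mem_nb, Finset.mem_sdiff, mem_na, mem_nb]
    constructor
    · rintro ⟨⟨h1, h2⟩, h3⟩
      refine ⟨⟨h1, ?_⟩, h3⟩
      by_contra h4
      apply h2
      refine ⟨h1, ?_, h4⟩
      rintro rfl
      exact (mem_na.mp hx).2.2 (h.symm _ _ h3)
    · rintro ⟨⟨h1, h2⟩, h3⟩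
      exact ⟨⟨h1, fun h4 => h4.2.2 h2⟩, h3⟩
  unfold H at key
  rw [h1, Finset.sum_congr rfl fun x hx => by rw [h2 x hx]] at key
  -- the sum of the degrees of `U`
  have hUe : U = na A U v ∪ (nb A U v ∪ {v}) := by
    ext y
    rw [Finset.mem_union, Finset.mem_union, mem_nb, mem_na, Finset.mem_singleton]
    constructor
    · intro hy
      by_cases h3 : A v y
      · exact Or.inr (Or.inl ⟨hy, h3⟩)
      · by_cases h4 : y = v
        · exact Or.inr (Or.inr h4)
        · exact Or.inl ⟨hy, h4, h3⟩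
    · rintro (h | h | h)
      · exact h.1
      · exact h.1
      · rw [h]
        exact hv
  have d1 : Disjoint (na A U v) (nb A U v ∪ {v}) := by
    rw [Finset.disjoint_left]
    intro y hy hy2
    rw [Finset.mem_union, mem_nb, Finset.mem_singleton] at hy2
    rw [mem_na] at hy
    rcases hy2 with h | h
    · exact hy.2.2 h.2
    · exact hy.2.1 h
  have d2 : Disjoint (nb A U v) {v} := by
    rw [Finset.disjoint_singleton_right, mem_nb]
    exact fun h' => h.irr v h'.2
  have h3 : ∀ x ∈ nb A U v, ((nb A U x).card : ℤ) =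
      (nb A (na A U v) x).card + ((nb A (nb A U v) x).card + 1) := by
    intro x hx
    conv_lhs => rw [hUe]
    rw [Idn.nb_union A _ _ x d1, Idn.nb_union A _ _ x d2]
    have : nb A {v} x = {v} := by
      ext y
      rw [mem_nb, Finset.mem_singleton]
      constructor
      · exact fun h' => h'.1
      · rintro rfl
        exact ⟨rfl, h.symm _ _ (mem_nb.mp hx).2⟩
    rw [this]
    simp
  have h4 : (dg A U : ℤ) = ∑ x ∈ na A U v, ((nb A U x).card : ℤ) +
      (∑ x ∈ nb A U v, ((nb A (na A U v) x).card : ℤ) + dg A (nb A U v) + (nb A U v).card) +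
      (nb A U v).card := by
    unfold dg
    push_cast
    conv_lhs => rw [hUe]
    rw [Finset.sum_union d1, Finset.sum_union d2, Finset.sum_singleton, ← hUe,
      Finset.sum_congr rfl h3, Finset.sum_add_distrib, Finset.sum_add_distrib, Finset.sum_const]
    simp only [nsmul_eq_mul, mul_one]
    ring
  rw [h4, Idn.sum_nb_comm A h.symm (nb A U v) (na A U v)]
  rw [Finset.sum_add_distrib] at key
  push_cast at key
  nlinarith [key]

/-- Monotonicity of the second entry under links. -/
theorem g2_link (h : Fam A F) (hL : LemmaL A F) (m : ℕ) (U : Finset V) (v : V)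
    (hU : F (m + 2) U) (hv : v ∈ U) :
    Fam.g2 A (nb A U v) ((m + 1 : ℕ) : ℤ) ≤ Fam.g2 A U ((m + 2 : ℕ) : ℤ) := by
  have h1 := dg_link h hL m U v hU hv
  have h2 := h.card_eq U v hv
  have h3 : (U.card : ℤ) = (nb A U v).card + (na A U v).card + 1 := by exact_mod_cast h2
  unfold Fam.g2
  rw [h3]
  push_cast
  nlinarith [h1]

/-- Nonnegativity of the second entry. -/
theorem g2_nonneg (h : Fam A F) (hL : LemmaL A F) : ∀ (m : ℕ) (U : Finset V), F m U →
    0 ≤ Fam.g2 A U (m : ℤ) := by
  intro m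
  induction m with
  | zero =>
    intro U hU
    rw [(h.zero U).mp hU]
    unfold Fam.g2 dg
    simp
  | succ m ih =>
    intro U hU
    obtain ⟨v, hv⟩ := h.ne m U hU
    rcases m with _ | m
    · obtain ⟨p, q, hpq, hA, hUe⟩ := h.one U hU
      have h1 : dg A U = 0 := by
        unfold dg
        refine Finset.sum_eq_zero fun x hx => ?_
        rw [Finset.card_eq_zero, Finset.eq_empty_iff_forall_notMem]
        intro y hy
        rw [mem_nb] at hy
        have hy1 := hy.1
        rw [hUe, Finset.mem_insert, Finset.mem_singleton] at hx hy1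
        rcases hx with rfl | rfl <;> rcases hy1 with rfl | rfl
        · exact h.irr _ hy.2
        · exact hA hy.2
        · exact hA (h.symm _ _ hy.2)
        · exact h.irr _ hy.2
      unfold Fam.g2
      rw [h1, h.card_one U hU]
      norm_num
    · exact le_trans (ih _ (h.link (m + 1) U v hU hv)) (g2_link h hL m U v hU hv)

end Pool.Agent.MP19e880.G2
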