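import Pool.Agent.Lib.MP_19e880_co_G2.LemmaL
import Pool.Agent.Lib.MP_19e880_co_G2.Ineq

/-!
The local lemma for families of links.
-/

set_option autoImplicit false
set_option linter.unusedSectionVars false
set_option linter.unusedVariables false

namespace Pool.Agent.MP19e880.G2

open Pool.Agent.MP19e880.Low

variable {V : Type} [DecidableEq V] {A : V → V → Prop} {F : ℕ → Finset V → Prop}

namespace Loc

variable {m : ℕ} {S O X C : Finset V} {𝒞 𝒳 𝒵 : Finset (Finset V)}

/-- The value of the full state. -/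
theorem LL_X (h : Loc A m S O X C 𝒞 𝒳) (hall : ∀ D ∈ 𝒞, ∃ x ∈ X, ad A D x) :
    nI A 𝒞 X = 𝒞.card ∧ nP 𝒳 X = 𝒳.card ∧ LL A S O 𝒞 𝒳 X = Lam A S O X 𝒞 𝒳 := by
  classical
  have hic : ∀ y, ic A 𝒞 X y = cnt A 𝒞 y := by
    intro y
    unfold ic cnt
    congr 1
    refine Finset.filter_congr fun D hD => ?_
    exact ⟨fun h' => h'.2, fun h' => ⟨hall D hD, h'⟩⟩
  have hBX : ∀ B ∈ 𝒳, B ∩ X = B := by
    intro B hB
    rw [Finset.inter_eq_left]
    intro y hy
    exact (h.dX.mem y).mpr ⟨B, hB, hy⟩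
  have hpc : ∀ y, pc A 𝒳 X y = cnt A 𝒳 y := by
    intro y
    unfold pc cnt
    congr 1
    refine Finset.filter_congr fun B hB => ?_
    rw [hBX B hB]
  refine ⟨?_, ?_, ?_⟩
  · unfold nI
    rw [Finset.filter_true_of_mem hall]
  · unfold nP
    rw [Finset.filter_true_of_mem]
    intro B hB
    rw [hBX B hB]
    exact h.dX.ne B hB
  · unfold LL Lam
    have hdis : Disjoint S O := by
      rw [Finset.disjoint_left]
      exact fun y hy hy2 => h.dSO y hy2 hy
    rw [Finset.sum_union hdis, ← Finset.sum_sdiff h.XS]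
    have e1 : ∑ y ∈ S \ X, vl A S 𝒞 𝒳 X y =
        ∑ y ∈ S \ X, ((cnt A 𝒳 y + cnt A 𝒞 y - 1 : ℕ) : ℤ) := by
      refine Finset.sum_congr rfl fun y hy => ?_
      rw [Finset.mem_sdiff] at hy
      unfold vl av
      rw [if_neg hy.2, if_pos hy.1, hpc, hic]
    have e2 : ∑ y ∈ X, vl A S 𝒞 𝒳 X y = ∑ y ∈ X, ((cnt A 𝒞 y : ℤ) - 1) := by
      refine Finset.sum_congr rfl fun y hy => ?_
      unfold vl
      rw [if_pos hy, hic]
    have e3 : ∑ y ∈ O, vl A S 𝒞 𝒳 X y =
        ∑ y ∈ O, (((nb A X y).card + cnt A 𝒞 y - 1 : ℕ) : ℤ) := by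
      refine Finset.sum_congr rfl fun y hy => ?_
      unfold vl av
      rw [if_neg (fun h' => h.dSO y hy (h.XS h')), if_neg (h.dSO y hy), hic]
    rw [e1, e2, e3]
    ring

/-- The bound when `C` is nonempty. -/
theorem bound_pos (h : Loc A m S O X C 𝒞 𝒳) (hC : C.Nonempty) :
    (2 * (m : ℤ) + 1) * ((𝒞.card : ℤ) - 1) + (2 * (m : ℤ) - 1) * (𝒳.card : ℤ) + 1 ≤
      Lam A S O X 𝒞 𝒳 := by
  classical
  obtain ⟨𝒵, h𝒵⟩ := exists_dec h.symm (Xi A O X)
  have hst := (h.St_X h𝒵 hC).bound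
  have hall : ∀ D ∈ 𝒞, ∃ x ∈ X, ad A D x := by
    intro D hD
    have hDC : D ⊆ C := fun y hy => (h.dC.mem y).mpr ⟨D, hD, hy⟩
    obtain ⟨x0, hx0⟩ := h.ne
    obtain ⟨a, ha, b, hb, hbD, hab⟩ := h.conn D (hDC.trans Finset.subset_union_right)
      (h.dC.ne D hD) (by
        intro he
        have h1 : x0 ∈ D := by
          rw [he]
          exact Finset.mem_union_left _ hx0
        exact h.dCS x0 (hDC h1) (h.XS hx0))
    rcases Finset.mem_union.mp hb with hbX | hbC
    · exact ⟨b, hbX, a, ha, hab⟩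
    · exfalso
      obtain ⟨D', hD', hbD'⟩ := (h.dC.mem b).mp hbC
      have hne : D ≠ D' := by
        rintro rfl
        exact hbD hbD'
      exact (h.dC.sep D hD D' hD' hne a ha b hbD').2 hab
  obtain ⟨e1, e2, e3⟩ := h.LL_X hall
  rw [e1, e2, e3] at hst
  linarith

/-- The bound when `C` is empty. -/
theorem bound_zero (h : Loc A m S O X C 𝒞 𝒳) (hC : C = ∅) :
    (2 * (m : ℤ) + 1) * ((𝒞.card : ℤ) - 1) + (2 * (m : ℤ) - 1) * (𝒳.card : ℤ) + 1 ≤
      Lam A S O X 𝒞 𝒳 := by
  classical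
  subst hC
  have h𝒞 : 𝒞 = ∅ := by
    rw [Finset.eq_empty_iff_forall_notMem]
    intro D hD
    obtain ⟨y, hy⟩ := h.dC.ne D hD
    exact absurd ((h.dC.mem y).mpr ⟨D, hD, hy⟩) (Finset.notMem_empty _)
  have hcn : Cn A X := by
    have := h.conn
    rwa [Finset.union_empty] at this
  have h𝒳 : 𝒳.card = 1 := by
    obtain ⟨x0, hx0⟩ := h.ne
    obtain ⟨B, hB, hxB⟩ := (h.dX.mem x0).mp hx0
    have hXB := h.comp_sub (Finset.Subset.refl X) hcn hB hx0 hxB
    rw [Finset.card_eq_one]
    refine ⟨B, ?_⟩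
    ext B'
    rw [Finset.mem_singleton]
    constructor
    · intro hB'
      by_contra hne
      obtain ⟨y, hy⟩ := h.dX.ne B' hB'
      have hyB : y ∈ B := hXB ((h.dX.mem y).mpr ⟨B', hB', hy⟩)
      exact (h.dX.sep B' hB' B hB hne y hy y hyB).1 rfl
    · rintro rfl
      exact hB
  have key : ∀ n : ℕ, ∀ Y : Finset V, Y ⊆ X → Y.Nonempty → (X \ Y).card = n →
      (Y.card : ℤ) - 1 ≤ ∑ y ∈ O, (((nb A Y y).card - 1 : ℕ) : ℤ) →
      (X.card : ℤ) - 1 ≤ ∑ y ∈ O, (((nb A X y).card - 1 : ℕ) : ℤ) := by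
    intro n
    induction n using Nat.strong_induction_on with
    | _ n ih =>
      intro Y hY hYn hn hb
      by_cases hYX : Y = X
      · rwa [hYX] at hb
      · obtain ⟨a, ha, x, hx, hxY, hax⟩ := hcn Y hY hYn hYX
        obtain ⟨w, hw, hxw, haw⟩ := h.w2 x hx a (h.XS (hY ha)) (h.symm _ _ hax)
        rw [Finset.empty_union] at hw
        refine ih ((X \ insert x Y).card) ?_ (insert x Y) (Finset.insert_subset hx hY)
          (Finset.insert_nonempty _ _) rfl ?_
        · rw [← hn]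
          refine Finset.card_lt_card ?_
          rw [Finset.ssubset_iff_of_subset (Finset.sdiff_subset_sdiff (Finset.Subset.refl _)
            (Finset.subset_insert _ _))]
          exact ⟨x, Finset.mem_sdiff.mpr ⟨hx, hxY⟩, fun h' =>
            (Finset.mem_sdiff.mp h').2 (Finset.mem_insert_self _ _)⟩
        · rw [Finset.card_insert_of_notMem hxY]
          have hle : ∀ y ∈ O, (((nb A Y y).card - 1 : ℕ) : ℤ) + (if y = w then 1 else 0) ≤
              (((nb A (insert x Y) y).card - 1 : ℕ) : ℤ) := by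
            intro y _
            have hmono : (nb A Y y).card ≤ (nb A (insert x Y) y).card := by
              refine Finset.card_le_card fun z hz => ?_
              rw [mem_nb] at hz ⊢
              exact ⟨Finset.mem_insert_of_mem hz.1, hz.2⟩
            split_ifs with hyw
            · subst hyw
              have h1 : (nb A Y y).card + 1 ≤ (nb A (insert x Y) y).card := by
                refine Finset.card_lt_card ?_
                rw [Finset.ssubset_iff_of_subset]
                · refine ⟨x, ?_, ?_⟩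
                  · rw [mem_nb]
                    exact ⟨Finset.mem_insert_self _ _, h.symm _ _ hxw⟩
                  · rw [mem_nb]
                    exact fun h' => hxY h'.1
                · intro z hz
                  rw [mem_nb] at hz ⊢
                  exact ⟨Finset.mem_insert_of_mem hz.1, hz.2⟩
              have h2 : 1 ≤ (nb A Y y).card :=
                Finset.card_pos.mpr ⟨a, mem_nb.mpr ⟨ha, h.symm _ _ haw⟩⟩
              omega
            · omega
          have hs := Finset.sum_le_sum hle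
          rw [Finset.sum_add_distrib, Finset.sum_ite_eq' O w, if_pos hw] at hs
          push_cast
          linarith
  obtain ⟨x0, hx0⟩ := h.ne
  have hfin := key _ {x0} (Finset.singleton_subset_iff.mpr hx0) (Finset.singleton_nonempty _) rfl (by
    rw [Finset.card_singleton]
    have : (0 : ℤ) ≤ ∑ y ∈ O, (((nb A {x0} y).card - 1 : ℕ) : ℤ) :=
      Finset.sum_nonneg fun y _ => by positivity
    push_cast
    linarith)
  have hcnt : ∀ y, cnt A 𝒞 y = 0 := by
    intro y
    unfold cnt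
    rw [h𝒞]
    simp
  unfold Lam
  have e1 : ∑ x ∈ X, ((cnt A 𝒞 x : ℤ) - 1) = -(X.card : ℤ) := by
    rw [Finset.sum_congr rfl (fun x _ => by rw [hcnt x])]
    simp
  have e2 : (0 : ℤ) ≤ ∑ y ∈ S \ X, ((cnt A 𝒳 y + cnt A 𝒞 y - 1 : ℕ) : ℤ) :=
    Finset.sum_nonneg fun y _ => by positivity
  have e3 : ∑ y ∈ O, (((nb A X y).card + cnt A 𝒞 y - 1 : ℕ) : ℤ) =
      ∑ y ∈ O, (((nb A X y).card - 1 : ℕ) : ℤ) := by
    refine Finset.sum_congr rfl fun y _ => ?_
    rw [hcnt y, add_zero]
  have hk : (𝒞.card : ℤ) = 0 := by rw [h𝒞]; rfl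
  have hp : (𝒳.card : ℤ) = 1 := by rw [h𝒳]; rfl
  rw [e1, e3, hk, hp]
  linarith

end Loc

/-- The local lemma. -/
theorem lemmaL (h : Fam A F) : LemmaL A F := by
  classical
  intro m U C r a 𝒞 𝒳 hU hC hCc hr hrC had haU haC hna hra hD𝒞 hD𝒳
  have hna_eq : (C \ nb A C r) ∪ (na A U r \ C) = na A U r := by
    ext y
    rw [Finset.mem_union, Finset.mem_sdiff, Finset.mem_sdiff, mem_nb, mem_na]
    constructor
    · rintro (⟨h1, h2⟩ | h1)
      · refine ⟨hC h1, ?_, fun h' => h2 ⟨h1, h'⟩⟩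
        rintro rfl
        exact hrC h1
      · exact h1.1
    · intro h1
      by_cases hy : y ∈ C
      · exact Or.inl ⟨hy, fun h' => h1.2.2 h'.2⟩
      · exact Or.inr ⟨h1, hy⟩
  have hXX : ∀ x ∈ nb A C r, x ∈ C ∧ x ∈ U ∧ A r x ∧ A x r := by
    intro x hx
    rw [mem_nb] at hx
    exact ⟨hx.1, hC hx.1, hx.2, h.symm _ _ hx.2⟩
  have hloc : Loc A m (nb A U r) (na A U r \ C) (nb A C r) (C \ nb A C r) 𝒞 𝒳 := by
    refine ⟨h.symm, h.irr, ?_, ?_, ?_, ?_, hD𝒞, hD𝒳, ?_, ?_, ?_, ?_, ?_, ?_, ?_⟩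
    · intro x hx
      rw [mem_nb] at hx ⊢
      exact ⟨hC hx.1, hx.2⟩
    · intro y hy hy2
      rw [Finset.mem_sdiff, mem_na] at hy
      rw [mem_nb] at hy2
      exact hy.1.2.2 hy2.2
    · intro y hy hy2
      rw [Finset.mem_sdiff, mem_nb] at hy
      rw [mem_nb] at hy2
      exact hy.2 ⟨hy.1, hy2.2⟩
    · intro y hy hy2
      rw [Finset.mem_sdiff] at hy hy2
      exact hy2.2 hy.1
    · -- connectivity
      intro x hx
      obtain ⟨_, hxU, _, hxr⟩ := hXX x hx
      rw [hna_eq]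
      have e : nb A (na A U r) x = na A (nb A U x) r := by
        ext y
        rw [mem_nb, mem_na, mem_na, mem_nb]
        tauto
      rw [e]
      exact h.mconn m _ r (h.link (m + 1) U x hU hxU) (mem_nb.mpr ⟨hr, hxr⟩)
    · intro x hx
      obtain ⟨_, hxU, _, hxr⟩ := hXX x hx
      rw [hna_eq]
      obtain ⟨y, hy⟩ := h.na_nonempty m _ r (h.link (m + 1) U x hU hxU) (mem_nb.mpr ⟨hr, hxr⟩)
      rw [mem_na, mem_nb] at hy
      exact ⟨y, mem_na.mpr ⟨hy.1.1, hy.2⟩, hy.1.2⟩
    · intro x hx y hy hxy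
      obtain ⟨_, hxU, _, hxr⟩ := hXX x hx
      rw [mem_nb] at hy
      rw [hna_eq]
      have h1 := h.link m _ y (h.link (m + 1) U x hU hxU) (mem_nb.mpr ⟨hy.1, hxy⟩)
      have hrm : r ∈ nb A (nb A U x) y :=
        mem_nb.mpr ⟨mem_nb.mpr ⟨hr, hxr⟩, h.symm _ _ hy.2⟩
      rcases m with _ | m
      · rw [h.zero] at h1
        rw [h1] at hrm
        exact absurd hrm (Finset.notMem_empty _)
      · obtain ⟨w, hw⟩ := h.na_nonempty m _ r h1 hrm
        rw [mem_na, mem_nb, mem_nb] at hw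
        exact ⟨w, mem_na.mpr ⟨hw.1.1.1, hw.2⟩, hw.1.1.2, hw.1.2⟩
    · -- separators in the link of `x`
      intro x hx D hD hDx
      obtain ⟨hxC, hxU, hrx, hxr⟩ := hXX x hx
      have hDC : ∀ y ∈ D, y ∈ C ∧ ¬ A r y := by
        intro y hy
        have := (hD𝒞.mem y).mpr ⟨D, hD, hy⟩
        rw [Finset.mem_sdiff, mem_nb] at this
        exact ⟨this.1, fun h' => this.2 ⟨this.1, h'⟩⟩
      obtain ⟨d0, hd0, hd0x⟩ := hDx
      have hsep := h.sep (m + 1) (nb A U x) (nb A D x)
        ((nb A U x).filter (fun y => y ∉ D ∧ ¬ ad A D y)) (h.link (m + 1) U x hU hxU) (by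
          intro y hy
          rw [mem_nb] at hy ⊢
          exact ⟨hC (hDC y hy.1).1, hy.2⟩) (Finset.filter_subset _ _)
        ⟨d0, mem_nb.mpr ⟨hd0, h.symm _ _ hd0x⟩⟩
        ⟨r, by
          rw [Finset.mem_filter, mem_nb]
          refine ⟨⟨hr, hxr⟩, fun h' => hrC (hDC r h').1, ?_⟩
          rintro ⟨y, hy, hyr⟩
          exact (hDC y hy).2 (h.symm _ _ hyr)⟩ (by
          rw [Finset.disjoint_left]
          intro y hy hy2
          rw [mem_nb] at hy
          rw [Finset.mem_filter] at hy2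
          exact hy2.2.1 hy.1) (by
          intro p hp q hq hpq
          rw [mem_nb] at hp
          rw [Finset.mem_filter] at hq
          exact hq.2.2 ⟨p, hp.1, hpq⟩)
      have hsub : (nb A U x \ nb A D x) \ ((nb A U x).filter (fun y => y ∉ D ∧ ¬ ad A D y)) ⊆
          (nb A U r ∪ (na A U r \ C)).filter (fun y => A x y ∧ ad A D y) := by
        intro y hy
        rw [Finset.mem_sdiff, Finset.mem_sdiff, mem_nb, mem_nb, Finset.mem_filter, mem_nb] at hy
        obtain ⟨⟨⟨hyU, hxy⟩, hyD⟩, hyn⟩ := hy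
        have hyD' : y ∉ D := fun h' => hyD ⟨h', hxy⟩
        have hDy : ad A D y := by
          by_contra h'
          exact hyn ⟨⟨hyU, hxy⟩, hyD', h'⟩
        rw [Finset.mem_filter, Finset.mem_union, mem_nb, Finset.mem_sdiff, mem_na]
        refine ⟨?_, hxy, hDy⟩
        by_cases hry : A r y
        · exact Or.inl ⟨hyU, hry⟩
        · right
          obtain ⟨p, hp, hpy⟩ := hDy
          refine ⟨⟨hyU, ?_, hry⟩, ?_⟩
          · rintro rfl
            exact (hDC p hp).2 (h.symm _ _ hpy)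
          · intro hyC
            obtain ⟨D', hD', hyD2⟩ := (hD𝒞.mem y).mp (by
              rw [Finset.mem_sdiff, mem_nb]
              exact ⟨hyC, fun h' => hry h'.2⟩)
            have hne : D ≠ D' := by
              rintro rfl
              exact hyD' hyD2
            exact (hD𝒞.sep D hD D' hD' hne p hp y hyD2).2 hpy
      have := Finset.card_le_card hsub
      omega
    · -- separators in the link of `r`
      intro Y hY hYn
      have hsep := h.sep (m + 1) (nb A U r) Y
        ((nb A U r).filter (fun y => y ∉ Y ∧ ¬ ad A Y y)) (h.link (m + 1) U r hU hr) (by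
          intro y hy
          obtain ⟨_, h2, h3, _⟩ := hXX y (hY hy)
          exact mem_nb.mpr ⟨h2, h3⟩) (Finset.filter_subset _ _) hYn
        ⟨a, by
          rw [Finset.mem_filter, mem_nb]
          refine ⟨⟨haU, hra⟩, fun h' => haC (hXX a (hY h')).1, ?_⟩
          rintro ⟨y, hy, hya⟩
          exact hna y (hXX y (hY hy)).1 hya⟩ (by
          rw [Finset.disjoint_left]
          intro y hy hy2
          rw [Finset.mem_filter] at hy2
          exact hy2.2.1 hy) (by
          intro p hp q hq hpq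
          rw [Finset.mem_filter] at hq
          exact hq.2.2 ⟨p, hp, hpq⟩)
      have hsub : (nb A U r \ Y) \ ((nb A U r).filter (fun y => y ∉ Y ∧ ¬ ad A Y y)) ⊆
          oN A (nb A U r) Y := by
        intro y hy
        rw [Finset.mem_sdiff, Finset.mem_sdiff, Finset.mem_filter] at hy
        rw [mem_oN]
        refine ⟨hy.1.1, hy.1.2, ?_⟩
        by_contra h'
        exact hy.2 ⟨hy.1.1, hy.1.2, h'⟩
      have := Finset.card_le_card hsub
      omega
    · have e : nb A C r ∪ (C \ nb A C r) = C := by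
        refine Finset.union_sdiff_of_subset ?_
        intro y hy
        exact (mem_nb.mp hy).1
      rw [e]
      exact hCc
    · obtain ⟨x, hx, hxr⟩ := had
      exact ⟨x, mem_nb.mpr ⟨hx, h.symm _ _ hxr⟩⟩
  rcases Finset.eq_empty_or_nonempty (C \ nb A C r) with he | hne
  · exact hloc.bound_zero he
  · exact hloc.bound_pos hne

end Pool.Agent.MP19e880.G2
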