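import Pool.Agent.Lib.MP_19e880_co_G2.Ineq
import Pool.Agent.Lib.MP_19e880_co.LowF

/-!
From the families of links to the gamma vector.
-/

set_option autoImplicit false
set_option linter.unusedSectionVars false
set_option linter.unusedVariables false

namespace Pool.Agent.MP19e880.G2

open Pool.Agent.MP19e880 Pool.Agent.MP19e880.Low Polynomial

variable {V : Type} [Fintype V] [LinearOrder V] {k : Type} [Field k]

/-- The face numbers of a link. -/
theorem fn_link {S : Finset (Finset V)} (hS : ∀ F ∈ S, ∀ G : Finset V, G ⊆ F → G ∈ S)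
    (F : Finset V) (j : ℕ) :
    ((S.filter (fun G => Disjoint G F ∧ G ∪ F ∈ S)).filter (fun G => G.card = j)).card =
      fn S F j := by
  unfold fn
  refine Finset.card_bij (fun G _ => G ∪ F) ?_ ?_ ?_
  · intro G hG
    rw [Finset.mem_filter, Finset.mem_filter] at hG
    rw [Finset.mem_filter]
    refine ⟨hG.1.2.2, Finset.subset_union_right, ?_⟩
    rw [Finset.card_union_of_disjoint hG.1.2.1, hG.2]
    omega
  · intro G hG G' hG' h
    rw [Finset.mem_filter, Finset.mem_filter] at hG hG'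
    have h1 : (G ∪ F) \ F = G := Finset.union_sdiff_cancel_right hG.1.2.1
    have h2 : (G' ∪ F) \ F = G' := Finset.union_sdiff_cancel_right hG'.1.2.1
    rw [← h1, ← h2, h]
  · intro H hH
    rw [Finset.mem_filter] at hH
    have h1 : H \ F ∪ F = H := Finset.sdiff_union_of_subset hH.2.1
    refine ⟨H \ F, ?_, h1⟩
    rw [Finset.mem_filter, Finset.mem_filter]
    refine ⟨⟨hS H hH.1 _ Finset.sdiff_subset, Finset.sdiff_disjoint, ?_⟩, ?_⟩
    · rw [h1]
      exact hH.1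
    · have := Finset.card_sdiff_add_card_eq_card hH.2.1
      omega

/-- The sum of the degrees of a link. -/
theorem dg_face {S : Finset (Finset V)} {d : ℕ} (h : HS k S d) (hE : Eul S d) (F : Finset V) :
    Low.dg (Adj S) (lv S F) = 2 * fn S F 2 := by
  have h1 := count S hE.down F 1
  unfold Low.dg
  have h2 : ∀ v ∈ lv S F, (Low.nb (Adj S) (lv S F) v).card = fn S (insert v F) 1 := by
    intro v hv
    rw [fn_one S hE.down, nb_lv h hE F v hv]
  rw [Finset.sum_congr rfl h2, h1]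

/-- Monotonicity for all faces. -/
theorem g2_face {S : Finset (Finset V)} {d : ℕ} (h : HS k S d) (hE : Eul S d)
    (hL : LemmaL (Adj S) (Lk S d)) (F : Finset V) (hF : F ∈ S) (hd : F.card + 1 ≤ d) :
    Fam.g2 (Adj S) (lv S F) ((d - F.card : ℕ) : ℤ) ≤ Fam.g2 (Adj S) (lv S ∅) (d : ℤ) := by
  have hfam := fam h hE
  induction F using Finset.induction_on with
  | empty => simp
  | insert x F hx ih =>
    rw [Finset.card_insert_of_notMem hx] at hd ⊢
    have hF' : F ∈ S := hE.down _ hF _ (Finset.subset_insert _ _)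
    refine le_trans ?_ (ih hF' (by omega))
    have hxl : x ∈ lv S F := by
      rw [mem_lv]
      exact ⟨hx, hF⟩
    obtain ⟨m, hm⟩ : ∃ m, d = F.card + (m + 2) := ⟨d - F.card - 2, by omega⟩
    have hU : Lk S d (m + 2) (lv S F) := ⟨F, hF', rfl, by omega⟩
    have key := g2_link hfam hL m (lv S F) x hU hxl
    rw [nb_lv h hE F x hxl] at key
    rw [show d - (F.card + 1) = m + 1 by omega, show d - F.card = m + 2 by omega]
    exact key

theorem low_coeff_two (N : ℕ) (hN : 2 ≤ N) (g : ℕ → ℤ) (q : ℕ → ℤ[X]) :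
    (∑ j ∈ Finset.range N, C (g j) * X ^ j * q j).coeff 0 = g 0 * (q 0).coeff 0 ∧
    (∑ j ∈ Finset.range N, C (g j) * X ^ j * q j).coeff 1 =
      g 0 * (q 0).coeff 1 + g 1 * (q 1).coeff 0 := by
  have key : ∀ k : ℕ, (∑ j ∈ Finset.range N, C (g j) * X ^ j * q j).coeff k =
      ∑ j ∈ Finset.range N, g j * (if j ≤ k then (q j).coeff (k - j) else 0) := by
    intro k
    rw [finsetSum_coeff]
    refine Finset.sum_congr rfl fun j _ => ?_
    rw [mul_assoc, coeff_C_mul, coeff_X_pow_mul']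
  obtain ⟨M, rfl⟩ : ∃ M, N = M + 2 := ⟨N - 2, by omega⟩
  refine ⟨?_, ?_⟩
  · rw [key, Finset.sum_range_succ', Finset.sum_range_succ']
    simp
  · rw [key, Finset.sum_range_succ', Finset.sum_range_succ']
    simp
    ring

theorem low_coeff_one (N : ℕ) (hN : 1 ≤ N) (g : ℕ → ℤ) (q : ℕ → ℤ[X]) :
    (∑ j ∈ Finset.range N, C (g j) * X ^ j * q j).coeff 0 = g 0 * (q 0).coeff 0 := by
  have key : ∀ k : ℕ, (∑ j ∈ Finset.range N, C (g j) * X ^ j * q j).coeff k =
      ∑ j ∈ Finset.range N, g j * (if j ≤ k then (q j).coeff (k - j) else 0) := by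
    intro k
    rw [finsetSum_coeff]
    refine Finset.sum_congr rfl fun j _ => ?_
    rw [mul_assoc, coeff_C_mul, coeff_X_pow_mul']
  obtain ⟨M, rfl⟩ : ∃ M, N = M + 1 := ⟨N - 1, by omega⟩
  rw [key, Finset.sum_range_succ']
  simp

theorem gamma_zero (d : ℕ) (f γ : ℕ → ℤ) (h0 : f 0 = 1)
    (h : ∑ j ∈ Finset.range (d + 1), C (f j) * X ^ j * (1 - X) ^ (d - j) =
      ∑ i ∈ Finset.range (d / 2 + 1), C (γ i) * X ^ i * (1 + X : ℤ[X]) ^ (d - 2 * i)) :
    γ 0 = 1 := by
  have a0 := low_coeff_one (d + 1) (by omega) f (fun j => (1 - X) ^ (d - j))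
  have b0 := low_coeff_one (d / 2 + 1) (by omega) γ (fun i => (1 + X) ^ (d - 2 * i))
  rw [h] at a0
  rw [a0] at b0
  rw [Nat.sub_zero] at b0
  rw [(one_sub_pow_coeff d).1, (one_add_pow_coeff d).1, h0] at b0
  linarith

theorem gamma_one (d : ℕ) (hd : 2 ≤ d) (f γ : ℕ → ℤ) (h0 : f 0 = 1)
    (h : ∑ j ∈ Finset.range (d + 1), C (f j) * X ^ j * (1 - X) ^ (d - j) =
      ∑ i ∈ Finset.range (d / 2 + 1), C (γ i) * X ^ i * (1 + X : ℤ[X]) ^ (d - 2 * i)) :
    γ 1 = f 1 - 2 * d := by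
  obtain ⟨a0, a1⟩ := low_coeff_two (d + 1) (by omega) f (fun j => (1 - X) ^ (d - j))
  obtain ⟨b0, b1⟩ := low_coeff_two (d / 2 + 1) (by omega) γ (fun i => (1 + X) ^ (d - 2 * i))
  rw [h] at a1
  rw [a1] at b1
  rw [Nat.sub_zero] at b1
  obtain ⟨p0, p1, p2⟩ := one_sub_pow_coeff d
  obtain ⟨q0, q1, q2⟩ := one_sub_pow_coeff (d - 1)
  obtain ⟨s0, s1, s2⟩ := one_add_pow_coeff d
  obtain ⟨t0, t1, t2⟩ := one_add_pow_coeff (d - 2)
  rw [show 2 * 1 = 2 from rfl, h0, p1, q0, s1, t0, gamma_zero d f γ h0 h] at b1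
  linarith

/-- The gamma vector of a flag homology sphere, from the local lemma. -/
theorem gamma_main {S : Finset (Finset V)} {d : ℕ} (h : HS k S d) (hE : Eul S d)
    (hL : LemmaL (Adj S) (Lk S d)) (h0 : (∅ : Finset V) ∈ S) (γ : ℕ → ℤ)
    (hγ : ∑ j ∈ Finset.range (d + 1),
        C (((S.filter (fun G => G.card = j)).card : ℕ) : ℤ) * X ^ j * (1 - X) ^ (d - j) =
      ∑ i ∈ Finset.range (d / 2 + 1), C (γ i) * X ^ i * (1 + X : ℤ[X]) ^ (d - 2 * i)) :
    (4 ≤ d → 0 ≤ γ 2 ∧ ∀ F ∈ S, F.card + 4 ≤ d → ∀ γ' : ℕ → ℤ,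
      (∑ j ∈ Finset.range (d - F.card + 1),
        C ((((S.filter (fun G => Disjoint G F ∧ G ∪ F ∈ S)).filter
          (fun G => G.card = j)).card : ℕ) : ℤ) * X ^ j * (1 - X) ^ (d - F.card - j) =
      ∑ i ∈ Finset.range ((d - F.card) / 2 + 1),
        C (γ' i) * X ^ i * (1 + X : ℤ[X]) ^ (d - F.card - 2 * i)) → γ' 2 ≤ γ 2) ∧
    (d ≤ 5 → ∀ i : ℕ, i ≤ d / 2 → 0 ≤ γ i) := by
  have hfam := fam h hE
  set f : ℕ → ℤ := fun j => (((S.filter (fun G => G.card = j)).card : ℕ) : ℤ) with hf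
  have hfn : ∀ j, f j = fn S ∅ j := by
    intro j
    simp only [hf]
    unfold fn
    congr 2
    refine Finset.filter_congr fun F _ => ?_
    simp
  have hf0 : f 0 = 1 := by
    rw [hfn, fn_zero S ∅ h0]
    rfl
  have hγ' : ∑ j ∈ Finset.range (d + 1), C (f j) * X ^ j * (1 - X) ^ (d - j) =
      ∑ i ∈ Finset.range (d / 2 + 1), C (γ i) * X ^ i * (1 + X : ℤ[X]) ^ (d - 2 * i) := hγ
  have hU : Lk S d d (lv S ∅) := ⟨∅, h0, rfl, by simp⟩
  have hg2 : 4 ≤ d → Fam.g2 (Adj S) (lv S ∅) (d : ℤ) = 2 * γ 2 := by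
    intro hd
    have g2 := (gamma_entries d hd f γ hf0 hγ').2
    unfold Fam.g2
    rw [g2, dg_face h hE, hfn, hfn, fn_one S hE.down]
    push_cast
    ring
  have hnn : 4 ≤ d → 0 ≤ γ 2 := by
    intro hd
    have := g2_nonneg hfam hL d (lv S ∅) hU
    rw [hg2 hd] at this
    linarith
  refine ⟨fun hd => ⟨hnn hd, ?_⟩, ?_⟩
  · intro F hF hFd γ' hγF
    have e : ∃ e, d - F.card = e := ⟨_, rfl⟩
    obtain ⟨e, he⟩ := e
    rw [he] at hγF
    set f' : ℕ → ℤ := fun j => ((((S.filter (fun G => Disjoint G F ∧ G ∪ F ∈ S)).filter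
          (fun G => G.card = j)).card : ℕ) : ℤ) with hf'
    have hfn' : ∀ j, f' j = fn S F j := by
      intro j
      simp only [hf']
      rw [fn_link hE.down]
    have hf0' : f' 0 = 1 := by
      rw [hfn', fn_zero S F hF]
      rfl
    have hγF' : ∑ j ∈ Finset.range (e + 1), C (f' j) * X ^ j * (1 - X) ^ (e - j) =
      ∑ i ∈ Finset.range (e / 2 + 1), C (γ' i) * X ^ i * (1 + X : ℤ[X]) ^ (e - 2 * i) := hγF
    have g2' := (gamma_entries e (by omega) f' γ' hf0' hγF').2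
    have h1 : Fam.g2 (Adj S) (lv S F) (e : ℤ) = 2 * γ' 2 := by
      unfold Fam.g2
      rw [g2', dg_face h hE, hfn', hfn', fn_one S hE.down]
      push_cast
      ring
    have h2 := g2_face h hE hL F hF (by omega)
    rw [he, h1, hg2 hd] at h2
    linarith
  · intro hd i hi
    have hi3 : i < 3 := by omega
    interval_cases i
    · rw [gamma_zero d f γ hf0 hγ']
      norm_num
    · rw [gamma_one d (by omega) f γ hf0 hγ', hfn, fn_one S hE.down]
      have := lv_two_mul h d ∅ h0 (by simp)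
      have h3 : (2 * d : ℤ) ≤ (lv S ∅).card := by exact_mod_cast this
      linarith
    · exact hnn (by omega)

end Pool.Agent.MP19e880.G2
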