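import Pool.Agent.Lib.MP_19e880_co_G2.Value

/-!
Blocks: a vertex of `X \ Xi` together with the components of `Xi` adjacent to it.
-/

set_option autoImplicit false
set_option linter.unusedSectionVars false

namespace Pool.Agent.MP19e880.G2

open Pool.Agent.MP19e880.Low

variable {V : Type} [DecidableEq V]

/-- Partial states. -/
structure St (A : V → V → Prop) (m : ℕ) (S O X : Finset V) (𝒞 𝒳 𝒵 : Finset (Finset V))
    (Y : Finset V) : Prop where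
  sub : Y ⊆ X
  inv : ∀ I ∈ 𝒵, ∀ x ∈ Y, (x ∈ I ∨ ad A I x) → I ⊆ Y
  bound : (2 * (m : ℤ) + 1) * nI A 𝒞 Y + (2 * (m : ℤ) - 1) * nP 𝒳 Y - 2 * m ≤ LL A S O 𝒞 𝒳 Y

open Classical in
/-- The components of `Xi` adjacent to `x` and not contained in `Y`. -/
noncomputable def bI (A : V → V → Prop) (𝒵 : Finset (Finset V)) (Y : Finset V) (x : V) :
    Finset V :=
  (𝒵.filter (fun I => ad A I x ∧ ¬ I ⊆ Y)).biUnion id

theorem mem_bI {A : V → V → Prop} {𝒵 : Finset (Finset V)} {Y : Finset V} {x y : V} :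
    y ∈ bI A 𝒵 Y x ↔ ∃ I ∈ 𝒵, ad A I x ∧ ¬ I ⊆ Y ∧ y ∈ I := by
  classical
  unfold bI
  simp only [Finset.mem_biUnion, Finset.mem_filter, id]
  constructor
  · rintro ⟨I, ⟨h1, h2, h3⟩, h4⟩
    exact ⟨I, h1, h2, h3, h4⟩
  · rintro ⟨I, h1, h2, h3, h4⟩
    exact ⟨I, ⟨h1, h2, h3⟩, h4⟩

namespace Loc

variable {A : V → V → Prop} {m : ℕ} {S O X C : Finset V} {𝒞 𝒳 𝒵 : Finset (Finset V)}

theorem comp_sub (h : Loc A m S O X C 𝒞 𝒳) {I B : Finset V} (hI : I ⊆ X) (hcn : Cn A I)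
    (hB : B ∈ 𝒳) {x : V} (hx : x ∈ I) (hxB : x ∈ B) : I ⊆ B := by
  by_contra hcon
  obtain ⟨a, ha, b, hb, hb2, hab⟩ := hcn (I ∩ B) Finset.inter_subset_left
    ⟨x, Finset.mem_inter.mpr ⟨hx, hxB⟩⟩ (by
      intro he
      exact hcon (he ▸ Finset.inter_subset_right))
  rw [Finset.mem_inter] at ha hb2
  obtain ⟨B', hB', hbB'⟩ := (h.dX.mem b).mp (hI hb)
  have hne : B ≠ B' := by
    rintro rfl
    exact hb2 ⟨hb, hbB'⟩
  exact (h.dX.sep B hB B' hB' hne a ha.2 b hbB').2 hab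

theorem bI_Xi (h𝒵 : Dec A (Xi A O X) 𝒵) {Y : Finset V} {x y : V} (hy : y ∈ bI A 𝒵 Y x) :
    y ∈ Xi A O X := by
  obtain ⟨I, hI, _, _, hyI⟩ := mem_bI.mp hy
  exact (h𝒵.mem y).mpr ⟨I, hI, hyI⟩

theorem bI_not (h : Loc A m S O X C 𝒞 𝒳) {Y : Finset V} (hY : St A m S O X 𝒞 𝒳 𝒵 Y) {x y : V}
    (hy : y ∈ bI A 𝒵 Y x) : y ∉ Y ∧ ¬ ad A Y y := by
  obtain ⟨I, hI, _, hIY, hyI⟩ := mem_bI.mp hy
  constructor
  · intro hyY
    exact hIY (hY.inv I hI y hyY (Or.inl hyI))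
  · rintro ⟨w, hw, hwy⟩
    exact hIY (hY.inv I hI w hw (Or.inr ⟨y, hyI, h.symm _ _ hwy⟩))

/-- Members of a block have value zero before and after. -/
theorem vl_bI (h : Loc A m S O X C 𝒞 𝒳) {Y Y' : Finset V}
    {y : V} (hyX : y ∈ Xi A O X) (hyY : y ∉ Y) (hyY2 : ¬ ad A Y y)
    (hyY' : y ∈ Y') : vl A S 𝒞 𝒳 Y' y - vl A S 𝒞 𝒳 Y y = 0 := by
  classical
  obtain ⟨D, hD, hDy⟩ := h.int_exists hyX
  have h1 : ic A 𝒞 Y' y = 1 := by
    unfold ic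
    rw [Finset.card_eq_one]
    refine ⟨D, ?_⟩
    ext D'
    rw [Finset.mem_filter, Finset.mem_singleton]
    constructor
    · rintro ⟨hD', _, hD'y⟩
      exact (h.int_unique hyX hD hD' hDy hD'y).symm
    · rintro rfl
      exact ⟨hD, ⟨y, hyY', hDy⟩, hDy⟩
  have h2 : ic A 𝒞 Y y ≤ 1 := by
    unfold ic
    rw [Finset.card_le_one]
    intro D1 hD1 D2 hD2
    rw [Finset.mem_filter] at hD1 hD2
    exact h.int_unique hyX hD1.1 hD2.1 hD1.2.2 hD2.2.2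
  unfold vl
  rw [if_pos hyY', if_neg hyY, h1, h.av_zero hyY2]
  have h3 : 0 + ic A 𝒞 Y y - 1 = 0 := by omega
  rw [h3]
  simp

/-- The new members of `𝒞` are adjacent to `x`. -/
theorem JJ_adj (h : Loc A m S O X C 𝒞 𝒳) (h𝒵 : Dec A (Xi A O X) 𝒵) {Y : Finset V} {x : V}
    (hx : x ∈ X) {D : Finset V} (hD : D ∈ JJ A 𝒞 Y (Y ∪ insert x (bI A 𝒵 Y x))) : ad A D x := by
  rw [mem_JJ] at hD
  obtain ⟨hD1, ⟨y, hy, hDy⟩, hD3⟩ := hD
  rw [Finset.mem_union, Finset.mem_insert] at hy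
  rcases hy with hy | rfl | hy
  · exact absurd ⟨y, hy, hDy⟩ hD3
  · exact hDy
  · obtain ⟨I, hI, hIx, _, hyI⟩ := mem_bI.mp hy
    obtain ⟨w, hw, hwx⟩ := hIx
    have hIs : I ⊆ Xi A O X := fun z hz => (h𝒵.mem z).mpr ⟨I, hI, hz⟩
    have h1 := h.int_comp hIs (h𝒵.cn I hI) hyI hw hD1 hDy
    exact h.int_adj (hIs hw) (h.XS hx) hwx hD1 h1

/-- The invariant is preserved. -/
theorem inv_step (_ : Loc A m S O X C 𝒞 𝒳) (h𝒵 : Dec A (Xi A O X) 𝒵) {Y : Finset V}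
    (hY : St A m S O X 𝒞 𝒳 𝒵 Y) {x : V} (hx : x ∉ Xi A O X) :
    ∀ I ∈ 𝒵, ∀ y ∈ Y ∪ insert x (bI A 𝒵 Y x), (y ∈ I ∨ ad A I y) →
      I ⊆ Y ∪ insert x (bI A 𝒵 Y x) := by
  intro I hI y hy hyI
  rw [Finset.mem_union, Finset.mem_insert] at hy
  rcases hy with hy | rfl | hy
  · exact (hY.inv I hI y hy hyI).trans Finset.subset_union_left
  · rcases hyI with hyI | hyI
    · exact absurd ((h𝒵.mem y).mpr ⟨I, hI, hyI⟩) hx
    · by_cases hIY : I ⊆ Y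
      · exact hIY.trans Finset.subset_union_left
      · intro z hz
        rw [Finset.mem_union, Finset.mem_insert, mem_bI]
        exact Or.inr (Or.inr ⟨I, hI, hyI, hIY, hz⟩)
  · obtain ⟨I', hI', hI'x, hI'Y, hyI'⟩ := mem_bI.mp hy
    have hII : I = I' := by
      by_contra hne
      rcases hyI with hyI | ⟨w, hw, hwy⟩
      · exact (h𝒵.sep I hI I' hI' hne y hyI y hyI').1 rfl
      · exact (h𝒵.sep I hI I' hI' hne w hw y hyI').2 hwy
    subst hII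
    intro z hz
    rw [Finset.mem_union, Finset.mem_insert, mem_bI]
    exact Or.inr (Or.inr ⟨I, hI, hI'x, hI'Y, hz⟩)

open Classical in
/-- The separator count for a member `D` of `𝒞` adjacent to `x`. -/
theorem Q_size (h : Loc A m S O X C 𝒞 𝒳) (h𝒵 : Dec A (Xi A O X) 𝒵) {Y : Finset V}
    (hY : St A m S O X 𝒞 𝒳 𝒵 Y) {x : V} (hxX : x ∈ X) (hx : x ∉ Xi A O X)
    {D : Finset V} (hD : D ∈ 𝒞) (hDx : ad A D x) (hYD : ∀ y ∈ Y, A x y → ¬ ad A D y) :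
    2 * m ≤ ((S ∪ O).filter (fun y => y ∉ Y ∪ insert x (bI A 𝒵 Y x) ∧
      ((y ∈ S ∧ ad A (insert x (bI A 𝒵 Y x)) y) ∨ (y ∈ O ∧ A x y)) ∧ ad A D y)).card := by
  by_cases hcase : ∃ y ∈ bI A 𝒵 Y x, ad A D y
  · obtain ⟨y0, hy0, hDy0⟩ := hcase
    obtain ⟨I, hI, hIx, hIY, hy0I⟩ := mem_bI.mp hy0
    have hIs : I ⊆ Xi A O X := fun z hz => (h𝒵.mem z).mpr ⟨I, hI, hz⟩
    have hIX : I ⊆ X := fun z hz => (mem_Xi.mp (hIs hz)).1
    have h1 := h.Sp I hIX ⟨y0, hy0I⟩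
    have hxO : ∃ w ∈ O, A x w := by
      by_contra hcon
      push Not at hcon
      exact hx (mem_Xi.mpr ⟨hxX, hcon⟩)
    obtain ⟨w, hwO, hxw⟩ := hxO
    obtain ⟨z, hzO, hxz, hDz⟩ := h.exit hxX hD hDx (Finset.mem_union_right _ hwO) hxw
      (fun h' => h.dCO w ((h.dC.mem w).mpr ⟨D, hD, h'⟩) hwO)
    have hzS := h.dSO z hzO
    have hsub : insert z ((oN A S I).erase x) ⊆ (S ∪ O).filter (fun y =>
        y ∉ Y ∪ insert x (bI A 𝒵 Y x) ∧
        ((y ∈ S ∧ ad A (insert x (bI A 𝒵 Y x)) y) ∨ (y ∈ O ∧ A x y)) ∧ ad A D y) := by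
      intro y hy
      rw [Finset.mem_insert, Finset.mem_erase, mem_oNl] at hy
      rw [Finset.mem_filter, Finset.mem_union, Finset.mem_union, Finset.mem_insert]
      rcases hy with rfl | ⟨hyx, hyS, hyI, hIy⟩
      · refine ⟨Or.inr hzO, ?_, Or.inr ⟨hzO, hxz⟩, hDz⟩
        rintro (h' | rfl | h')
        · exact hzS (h.XS (hY.sub h'))
        · exact hzS (h.XS hxX)
        · exact hzS (h.XS (mem_Xi.mp (bI_Xi h𝒵 h')).1)
      · obtain ⟨w', hw', hw'y⟩ := hIy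
        refine ⟨Or.inl hyS, ?_, Or.inl ⟨hyS, w', ?_, hw'y⟩, ?_⟩
        · rintro (h' | rfl | h')
          · exact hIY (hY.inv I hI y h' (Or.inr ⟨w', hw', hw'y⟩))
          · exact hyx rfl
          · obtain ⟨I', hI', _, _, hyI'⟩ := mem_bI.mp h'
            have hne : I ≠ I' := by
              rintro rfl
              exact hyI hyI'
            exact (h𝒵.sep I hI I' hI' hne w' hw' y hyI').2 hw'y
        · rw [Finset.mem_insert, mem_bI]
          exact Or.inr ⟨I, hI, hIx, hIY, hw'⟩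
        · exact h.int_adj (hIs hw') hyS hw'y hD (h.int_comp hIs (h𝒵.cn I hI) hy0I hw' hD hDy0)
    have h2 := Finset.card_le_card hsub
    have h3 : x ∈ oN A S I := by
      rw [mem_oNl]
      exact ⟨h.XS hxX, fun h' => hx (hIs h'), hIx⟩
    rw [Finset.card_insert_of_notMem, Finset.card_erase_of_mem h3] at h2
    · have h4 := Finset.card_pos.mpr ⟨x, h3⟩
      omega
    · intro h'
      rw [Finset.mem_erase, mem_oNl] at h'
      exact hzS h'.2.1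
  · push Not at hcase
    refine (h.K x hxX D hD hDx).trans (Finset.card_le_card ?_)
    intro y hy
    rw [Finset.mem_filter] at hy
    rw [Finset.mem_filter]
    refine ⟨hy.1, ?_, ?_, hy.2.2⟩
    · rw [Finset.mem_union, Finset.mem_insert]
      rintro (h' | rfl | h')
      · exact hYD y h' hy.2.1 hy.2.2
      · exact h.irr _ hy.2.1
      · exact hcase y h' hy.2.2
    · rcases Finset.mem_union.mp hy.1 with h' | h'
      · exact Or.inl ⟨h', x, Finset.mem_insert_self _ _, hy.2.1⟩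
      · exact Or.inr ⟨h', hy.2.1⟩

end Loc

end Pool.Agent.MP19e880.G2
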