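import Pool.Agent.Lib.MP_19e880_co_G2.Defs

/-!
Families of components, and the behaviour of `H` with respect to them.
-/

set_option autoImplicit false
set_option linter.unusedSectionVars false

namespace Pool.Agent.MP19e880.G2

open Pool.Agent.MP19e880.Low

variable {V : Type} [DecidableEq V] {A : V → V → Prop}

theorem Dec.sub {C : Finset V} {𝒞 : Finset (Finset V)} (hD : Dec A C 𝒞) {B : Finset V}
    (hB : B ∈ 𝒞) : B ⊆ C := fun x hx => (hD.mem x).2 ⟨B, hB, hx⟩

theorem Dec.eq_of_mem {C : Finset V} {𝒞 : Finset (Finset V)} (hD : Dec A C 𝒞) {B B' : Finset V}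
    (hB : B ∈ 𝒞) (hB' : B' ∈ 𝒞) {x : V} (hx : x ∈ B) (hx' : x ∈ B') : B = B' := by
  by_contra h
  exact (hD.sep B hB B' hB' h x hx x hx').1 rfl

theorem Dec.biUnion {C : Finset V} {𝒞 : Finset (Finset V)} (hD : Dec A C 𝒞) :
    C = 𝒞.biUnion id := by
  ext x
  rw [Finset.mem_biUnion, hD.mem x]
  rfl

theorem Dec.disj {C : Finset V} {𝒞 : Finset (Finset V)} (hD : Dec A C 𝒞) :
    (𝒞 : Set (Finset V)).PairwiseDisjoint id := by
  intro B hB B' hB' hne
  rw [Function.onFun, id, id, Finset.disjoint_left]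
  intro x hx hx'
  exact hne (hD.eq_of_mem hB hB' hx hx')

/-- Components exist. -/
theorem exists_dec (hs : ∀ x y, A x y → A y x) (C : Finset V) : ∃ 𝒞, Dec A C 𝒞 := by
  induction C using Finset.strongInduction with
  | H C ih =>
    rcases C.eq_empty_or_nonempty with rfl | hne
    · refine ⟨∅, ?_, ?_, ?_, ?_⟩
      · intro B hB
        exact absurd hB (Finset.notMem_empty _)
      · intro B hB
        exact absurd hB (Finset.notMem_empty _)
      · intro x
        constructor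
        · intro hx
          exact absurd hx (Finset.notMem_empty _)
        · rintro ⟨B, hB, -⟩
          exact absurd hB (Finset.notMem_empty _)
      · intro B hB
        exact absurd hB (Finset.notMem_empty _)
    · by_cases hC : Cn A C
      · refine ⟨{C}, ?_, ?_, ?_, ?_⟩
        · intro B hB
          rw [Finset.mem_singleton] at hB
          rw [hB]
          exact hne
        · intro B hB
          rw [Finset.mem_singleton] at hB
          rw [hB]
          exact hC
        · intro x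
          constructor
          · intro hx
            exact ⟨C, Finset.mem_singleton_self _, hx⟩
          · rintro ⟨B, hB, hx⟩
            rw [Finset.mem_singleton] at hB
            rw [← hB]
            exact hx
        · intro B hB B' hB' h
          rw [Finset.mem_singleton] at hB hB'
          exact absurd (hB.trans hB'.symm) h
      · have h1 : ∃ X : Finset V, X ⊆ C ∧ X.Nonempty ∧ X ≠ C ∧
            ∀ a ∈ X, ∀ b ∈ C, b ∉ X → ¬ A a b := by
          by_contra hcon
          apply hC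
          intro X h1 h2 h3
          by_contra h4
          apply hcon
          refine ⟨X, h1, h2, h3, ?_⟩
          intro a ha b hb hb' hab
          exact h4 ⟨a, ha, b, hb, hb', hab⟩
        obtain ⟨X, hX, hXne, hXC, hXA⟩ := h1
        obtain ⟨𝒳, h𝒳⟩ := ih X (Finset.ssubset_iff_subset_ne.2 ⟨hX, hXC⟩)
        have h2 : C \ X ⊂ C := by
          refine Finset.sdiff_ssubset hX hXne
        obtain ⟨𝒴, h𝒴⟩ := ih (C \ X) h2
        refine ⟨𝒳 ∪ 𝒴, ?_, ?_, ?_, ?_⟩
        · intro B hB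
          rcases Finset.mem_union.1 hB with hB | hB
          · exact h𝒳.ne B hB
          · exact h𝒴.ne B hB
        · intro B hB
          rcases Finset.mem_union.1 hB with hB | hB
          · exact h𝒳.cn B hB
          · exact h𝒴.cn B hB
        · intro x
          constructor
          · intro hx
            by_cases hxX : x ∈ X
            · obtain ⟨B, hB, hxB⟩ := (h𝒳.mem x).1 hxX
              exact ⟨B, Finset.mem_union_left _ hB, hxB⟩
            · obtain ⟨B, hB, hxB⟩ := (h𝒴.mem x).1 (Finset.mem_sdiff.2 ⟨hx, hxX⟩)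
              exact ⟨B, Finset.mem_union_right _ hB, hxB⟩
          · rintro ⟨B, hB, hxB⟩
            rcases Finset.mem_union.1 hB with hB | hB
            · exact hX (h𝒳.sub hB hxB)
            · exact (Finset.mem_sdiff.1 (h𝒴.sub hB hxB)).1
        · have key : ∀ x ∈ X, ∀ y ∈ C \ X, x ≠ y ∧ ¬ A x y := by
            intro x hx y hy
            rw [Finset.mem_sdiff] at hy
            refine ⟨?_, hXA x hx y hy.1 hy.2⟩
            rintro rfl
            exact hy.2 hx
          intro B hB B' hB' hne x hx y hy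
          rcases Finset.mem_union.1 hB with hB | hB <;> rcases Finset.mem_union.1 hB' with hB' | hB'
          · exact h𝒳.sep B hB B' hB' hne x hx y hy
          · exact key x (h𝒳.sub hB hx) y (h𝒴.sub hB' hy)
          · have h3 := key y (h𝒳.sub hB' hy) x (h𝒴.sub hB hx)
            exact ⟨h3.1.symm, fun h => h3.2 (hs _ _ h)⟩
          · exact h𝒴.sep B hB B' hB' hne x hx y hy

theorem Dec.ad_iff {C : Finset V} {𝒞 : Finset (Finset V)} (hD : Dec A C 𝒞) (y : V) :
    ad A C y ↔ 1 ≤ cnt A 𝒞 y := by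
  classical
  unfold cnt
  rw [Nat.one_le_iff_ne_zero, Finset.card_ne_zero]
  constructor
  · rintro ⟨x, hx, hxy⟩
    obtain ⟨B, hB, hxB⟩ := (hD.mem x).1 hx
    exact ⟨B, Finset.mem_filter.2 ⟨hB, x, hxB, hxy⟩⟩
  · rintro ⟨B, hB⟩
    rw [Finset.mem_filter] at hB
    obtain ⟨x, hx, hxy⟩ := hB.2
    exact ⟨x, hD.sub hB.1 hx, hxy⟩

theorem Dec.nb_eq {C : Finset V} {𝒞 : Finset (Finset V)} (hD : Dec A C 𝒞) {B : Finset V}
    (hB : B ∈ 𝒞) {x : V} (hx : x ∈ B) (U : Finset V) : nb A (U \ B) x = nb A (U \ C) x := by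
  ext y
  rw [mem_nb, mem_nb, Finset.mem_sdiff, Finset.mem_sdiff]
  constructor
  · rintro ⟨⟨h1, h2⟩, h3⟩
    refine ⟨⟨h1, ?_⟩, h3⟩
    intro hy
    obtain ⟨B', hB', hyB'⟩ := (hD.mem y).1 hy
    have hne : B ≠ B' := by
      rintro rfl
      exact h2 hyB'
    exact (hD.sep B hB B' hB' hne x hx y hyB').2 h3
  · rintro ⟨⟨h1, h2⟩, h3⟩
    exact ⟨⟨h1, fun h => h2 (hD.sub hB h)⟩, h3⟩

open Classical in
theorem Dec.oN_eq {C : Finset V} {𝒞 : Finset (Finset V)} (hD : Dec A C 𝒞) {B : Finset V}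
    (hB : B ∈ 𝒞) (U : Finset V) : oN A U B = (U \ C).filter (fun y => ad A B y) := by
  unfold oN
  ext y
  rw [Finset.mem_filter, Finset.mem_filter, Finset.mem_sdiff, Finset.mem_sdiff]
  constructor
  · rintro ⟨⟨h1, h2⟩, x, hx, h3⟩
    refine ⟨⟨h1, ?_⟩, x, hx, h3⟩
    intro hy
    obtain ⟨B', hB', hyB'⟩ := (hD.mem y).1 hy
    have hne : B ≠ B' := by
      rintro rfl
      exact h2 hyB'
    exact (hD.sep B hB B' hB' hne x hx y hyB').2 h3
  · rintro ⟨⟨h1, h2⟩, h3⟩
    exact ⟨⟨h1, fun h => h2 (hD.sub hB h)⟩, h3⟩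

theorem Dec.sum_oN {C : Finset V} {𝒞 : Finset (Finset V)} (hD : Dec A C 𝒞) (U : Finset V) :
    ∑ B ∈ 𝒞, (oN A U B).card = ∑ y ∈ U \ C, cnt A 𝒞 y := by
  classical
  have h1 : ∀ B ∈ 𝒞, (oN A U B).card = ∑ y ∈ U \ C, (if ad A B y then 1 else 0) := by
    intro B hB
    rw [hD.oN_eq hB, Finset.card_filter]
  rw [Finset.sum_congr rfl h1, Finset.sum_comm]
  refine Finset.sum_congr rfl fun y _ => ?_
  unfold cnt
  rw [Finset.card_filter]

theorem Dec.card_oN {C : Finset V} {𝒞 : Finset (Finset V)} (hD : Dec A C 𝒞) (U : Finset V) :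
    (oN A U C).card + ∑ y ∈ U \ C, (cnt A 𝒞 y - 1) = ∑ y ∈ U \ C, cnt A 𝒞 y := by
  classical
  have h1 : (oN A U C).card = ∑ y ∈ U \ C, (if ad A C y then 1 else 0) := by
    unfold oN
    rw [Finset.card_filter]
  rw [h1, ← Finset.sum_add_distrib]
  refine Finset.sum_congr rfl fun y _ => ?_
  by_cases h : ad A C y
  · rw [if_pos h]
    have := (hD.ad_iff y).1 h
    omega
  · rw [if_neg h]
    have : ¬ 1 ≤ cnt A 𝒞 y := fun h' => h ((hD.ad_iff y).2 h')
    omega

/-- `H` and components. -/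
theorem H_dec (hs : ∀ x y, A x y → A y x) (hi : ∀ x, ¬ A x x) (m : ℕ) {U C : Finset V}
    (hC : C ⊆ U) {𝒞 : Finset (Finset V)} (hD : Dec A C 𝒞) :
    H A m U C = ∑ B ∈ 𝒞, H A m U B + 2 * ∑ y ∈ U \ C, ((cnt A 𝒞 y - 1 : ℕ) : ℤ) := by
  classical
  have h1 : ∑ x ∈ C, (((nb A U x).card : ℤ) + ((nb A (U \ C) x).card : ℤ)) =
      ∑ B ∈ 𝒞, ∑ x ∈ B, (((nb A U x).card : ℤ) + ((nb A (U \ B) x).card : ℤ)) := by
    have h2 : ∀ B ∈ 𝒞, ∑ x ∈ B, (((nb A U x).card : ℤ) + ((nb A (U \ B) x).card : ℤ)) =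
        ∑ x ∈ id B, (((nb A U x).card : ℤ) + ((nb A (U \ C) x).card : ℤ)) := by
      intro B hB
      refine Finset.sum_congr rfl fun x hx => ?_
      rw [hD.nb_eq hB hx]
    rw [Finset.sum_congr rfl h2, ← Finset.sum_biUnion hD.disj, ← hD.biUnion]
  have h3 : (C.card : ℤ) = ∑ B ∈ 𝒞, (B.card : ℤ) := by
    have h4 : C.card = ∑ B ∈ 𝒞, (id B).card := by
      rw [← Finset.card_biUnion]
      · rw [← hD.biUnion]
      · intro B hB B' hB' hne
        exact hD.disj hB hB' hne
    rw [h4]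
    push_cast
    rfl
  have h5 : ((oN A U C).card : ℤ) + ∑ y ∈ U \ C, ((cnt A 𝒞 y - 1 : ℕ) : ℤ) =
      ∑ B ∈ 𝒞, ((oN A U B).card : ℤ) := by
    have h6 := hD.card_oN U
    rw [← hD.sum_oN U] at h6
    exact_mod_cast h6
  unfold H
  rw [h1, h3, Finset.sum_sub_distrib, Finset.sum_sub_distrib, ← Finset.mul_sum,
    ← Finset.mul_sum, ← h5]
  ring

end Pool.Agent.MP19e880.G2
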