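import Pool.Agent.Lib.MP_19e880_co.LowA

/-!
Definitions for the contraction inequality in families of vertex sets of links.
-/

set_option autoImplicit false
set_option linter.unusedSectionVars false

namespace Pool.Agent.MP19e880.G2

open Pool.Agent.MP19e880.Low

variable {V : Type} [DecidableEq V]

/-- `y` is adjacent to a member of `Y`. -/
def ad (A : V → V → Prop) (Y : Finset V) (y : V) : Prop := ∃ x ∈ Y, A x y

open Classical in
/-- The vertices of `U` outside `C` adjacent to `C`. -/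
noncomputable def oN (A : V → V → Prop) (U C : Finset V) : Finset V :=
  (U \ C).filter (fun y => ad A C y)

/-- Twice the number of edges of `U` touching `C`, minus `(4 m - 6) |C|`, minus twice the number
of neighbours of `C`. -/
noncomputable def H (A : V → V → Prop) (m : ℕ) (U C : Finset V) : ℤ :=
  ∑ x ∈ C, (((nb A U x).card : ℤ) + ((nb A (U \ C) x).card : ℤ)) - (4 * (m : ℤ) - 6) * (C.card : ℤ)
    - 2 * ((oN A U C).card : ℤ)

/-- `𝒞` is the family of components of `C`. -/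
structure Dec (A : V → V → Prop) (C : Finset V) (𝒞 : Finset (Finset V)) : Prop where
  ne : ∀ B ∈ 𝒞, B.Nonempty
  cn : ∀ B ∈ 𝒞, Cn A B
  mem : ∀ x, x ∈ C ↔ ∃ B ∈ 𝒞, x ∈ B
  sep : ∀ B ∈ 𝒞, ∀ B' ∈ 𝒞, B ≠ B' → ∀ x ∈ B, ∀ y ∈ B', x ≠ y ∧ ¬ A x y

open Classical in
/-- The number of members of `𝒞` adjacent to `y`. -/
noncomputable def cnt (A : V → V → Prop) (𝒞 : Finset (Finset V)) (y : V) : ℕ :=
  (𝒞.filter (fun B => ad A B y)).card

/-- The local term. -/
noncomputable def Lam (A : V → V → Prop) (S O X : Finset V) (𝒞 𝒳 : Finset (Finset V)) : ℤ :=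
  ∑ x ∈ X, ((cnt A 𝒞 x : ℤ) - 1) + ∑ y ∈ S \ X, ((cnt A 𝒳 y + cnt A 𝒞 y - 1 : ℕ) : ℤ)
    + ∑ y ∈ O, (((nb A X y).card + cnt A 𝒞 y - 1 : ℕ) : ℤ)

end Pool.Agent.MP19e880.G2
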