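import Pool.Agent.Lib.MP_19e880_co.LowA

/-!
Components of finite vertex sets, numbers of adjacent components, and the doubled number of edges
touching a set.
-/

set_option autoImplicit false
set_option linter.unusedSectionVars false
set_option linter.unusedVariables false

namespace Pool.Agent.MP19e880.G2.Idn

open Pool.Agent.MP19e880.Low

variable {V : Type} [DecidableEq V]

/-- `y` has a neighbour in `X`. -/
def To (A : V → V → Prop) (X : Finset V) (y : V) : Prop := ∃ x ∈ X, A x y

open Classical in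
/-- The vertices of `U` outside `C` with a neighbour in `C`. -/
noncomputable def nS (A : V → V → Prop) (U C : Finset V) : Finset V :=
  (U \ C).filter (fun y => To A C y)

open Classical in
/-- The number of members of `P` adjacent to `y`. -/
noncomputable def ct (A : V → V → Prop) (P : Finset (Finset V)) (y : V) : ℕ :=
  (P.filter (fun X => To A X y)).card

/-- `P` is the set of the connected components of `C`. -/
structure Cps (A : V → V → Prop) (C : Finset V) (P : Finset (Finset V)) : Prop where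
  sub : ∀ X ∈ P, X ⊆ C
  ne : ∀ X ∈ P, X.Nonempty
  cn : ∀ X ∈ P, Cn A X
  sep : ∀ X ∈ P, ∀ Y ∈ P, X ≠ Y → ∀ x ∈ X, ∀ y ∈ Y, x ≠ y ∧ ¬ A x y
  cov : ∀ x ∈ C, ∃ X ∈ P, x ∈ X

/-- Twice the number of edges of `U` touching `C`. -/
noncomputable def E2 (A : V → V → Prop) (U C : Finset V) : ℤ :=
  ∑ x ∈ C, (2 * ((nb A U x).card : ℤ) - (nb A C x).card)

/-- Twice the potential. -/
noncomputable def hh (c : ℤ) (A : V → V → Prop) (U C : Finset V) : ℤ :=
  E2 A U C - 2 * (c + 1) * C.card - 2 * (nS A U C).card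

theorem mem_nS {A : V → V → Prop} {U C : Finset V} {y : V} :
    y ∈ nS A U C ↔ y ∈ U ∧ y ∉ C ∧ To A C y := by
  classical
  unfold nS
  rw [Finset.mem_filter, Finset.mem_sdiff, and_assoc]

theorem ct_pos {A : V → V → Prop} {P : Finset (Finset V)} {y : V} :
    0 < ct A P y ↔ ∃ X ∈ P, To A X y := by
  classical
  unfold ct
  rw [Finset.card_pos]
  constructor
  · rintro ⟨X, hX⟩
    rw [Finset.mem_filter] at hX
    exact ⟨X, hX.1, hX.2⟩
  · rintro ⟨X, hX, hX2⟩
    exact ⟨X, Finset.mem_filter.mpr ⟨hX, hX2⟩⟩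

/-- Existence of the components. -/
theorem exists_cps (A : V → V → Prop) (hs : ∀ x y, A x y → A y x) : ∀ C : Finset V,
    ∃ P, Cps A C P := by
  classical
  intro C
  induction C using Finset.strongInduction with
  | _ C ih =>
    by_cases h0 : C.Nonempty
    · by_cases hc : Cn A C
      · refine ⟨{C}, ?_, ?_, ?_, ?_, ?_⟩
        · intro X hX
          rw [Finset.mem_singleton.mp hX]
        · intro X hX
          rw [Finset.mem_singleton.mp hX]
          exact h0
        · intro X hX
          rw [Finset.mem_singleton.mp hX]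
          exact hc
        · intro X hX Y hY hXY
          exact absurd ((Finset.mem_singleton.mp hX).trans (Finset.mem_singleton.mp hY).symm) hXY
        · intro x hx
          exact ⟨C, Finset.mem_singleton_self _, hx⟩
      · unfold Cn at hc
        push Not at hc
        obtain ⟨X, hXC, hXn, hXC', hno⟩ := hc
        have h1 : X ⊂ C := Finset.ssubset_iff_subset_ne.mpr ⟨hXC, hXC'⟩
        have h2 : C \ X ⊂ C := Finset.sdiff_ssubset hXC hXn
        obtain ⟨P, hP⟩ := ih X h1
        obtain ⟨Q, hQ⟩ := ih (C \ X) h2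
        have key : ∀ Y ∈ P, ∀ Z ∈ Q, ∀ x ∈ Y, ∀ y ∈ Z, x ≠ y ∧ ¬ A x y := by
          intro Y hY Z hZ x hx y hy
          have hx' := hP.sub Y hY hx
          have hy' := Finset.mem_sdiff.mp (hQ.sub Z hZ hy)
          refine ⟨?_, hno x hx' y hy'.1 hy'.2⟩
          rintro rfl
          exact hy'.2 hx'
        refine ⟨P ∪ Q, ?_, ?_, ?_, ?_, ?_⟩
        · intro Y hY
          rw [Finset.mem_union] at hY
          rcases hY with hY | hY
          · exact (hP.sub Y hY).trans hXC
          · exact (hQ.sub Y hY).trans Finset.sdiff_subset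
        · intro Y hY
          rw [Finset.mem_union] at hY
          rcases hY with hY | hY
          · exact hP.ne Y hY
          · exact hQ.ne Y hY
        · intro Y hY
          rw [Finset.mem_union] at hY
          rcases hY with hY | hY
          · exact hP.cn Y hY
          · exact hQ.cn Y hY
        · intro Y hY Z hZ hYZ x hx y hy
          rw [Finset.mem_union] at hY hZ
          rcases hY with hY | hY <;> rcases hZ with hZ | hZ
          · exact hP.sep Y hY Z hZ hYZ x hx y hy
          · exact key Y hY Z hZ x hx y hy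
          · have := key Z hZ Y hY y hy x hx
            exact ⟨this.1.symm, fun h' => this.2 (hs _ _ h')⟩
          · exact hQ.sep Y hY Z hZ hYZ x hx y hy
        · intro x hx
          by_cases hxX : x ∈ X
          · obtain ⟨Y, hY, hxY⟩ := hP.cov x hxX
            exact ⟨Y, Finset.mem_union_left _ hY, hxY⟩
          · obtain ⟨Y, hY, hxY⟩ := hQ.cov x (Finset.mem_sdiff.mpr ⟨hx, hxX⟩)
            exact ⟨Y, Finset.mem_union_right _ hY, hxY⟩
    · rw [Finset.not_nonempty_iff_eq_empty] at h0
      subst h0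
      exact ⟨∅, by simp, by simp, by simp, by simp, by simp⟩

namespace Cps

variable {A : V → V → Prop} {C : Finset V} {P : Finset (Finset V)}

theorem disj (h : Cps A C P) : ∀ X ∈ P, ∀ Y ∈ P, X ≠ Y → Disjoint X Y := by
  intro X hX Y hY hXY
  rw [Finset.disjoint_left]
  intro x hx hy
  exact (h.sep X hX Y hY hXY x hx x hy).1 rfl

theorem eq_of_mem (h : Cps A C P) {X Y : Finset V} (hX : X ∈ P) (hY : Y ∈ P) {x : V} (hx : x ∈ X)
    (hy : x ∈ Y) : X = Y := by
  by_contra hne
  exact (h.sep X hX Y hY hne x hx x hy).1 rfl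

theorem sum {M : Type} [AddCommMonoid M] (h : Cps A C P) (f : V → M) :
    ∑ x ∈ C, f x = ∑ X ∈ P, ∑ x ∈ X, f x := by
  classical
  have h1 : C = P.biUnion id := by
    ext x
    rw [Finset.mem_biUnion]
    constructor
    · exact h.cov x
    · rintro ⟨X, hX, hx⟩
      exact h.sub X hX hx
  rw [h1, Finset.sum_biUnion]
  · rfl
  · intro X hX Y hY hXY
    exact h.disj X hX Y hY hXY

theorem nb_eq (h : Cps A C P) {X : Finset V} (hX : X ∈ P) {x : V} (hx : x ∈ X) :
    nb A C x = nb A X x := by
  ext y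
  rw [mem_nb, mem_nb]
  constructor
  · rintro ⟨h1, h2⟩
    obtain ⟨Y, hY, hy⟩ := h.cov y h1
    refine ⟨?_, h2⟩
    by_cases hXY : X = Y
    · rw [hXY]
      exact hy
    · exact absurd h2 (h.sep X hX Y hY hXY x hx y hy).2
  · rintro ⟨h1, h2⟩
    exact ⟨h.sub X hX h1, h2⟩

theorem E2_eq (h : Cps A C P) (U : Finset V) : E2 A U C = ∑ X ∈ P, E2 A U X := by
  unfold E2
  rw [h.sum]
  refine Finset.sum_congr rfl fun X hX => Finset.sum_congr rfl fun x hx => ?_
  rw [h.nb_eq hX hx]

theorem card_eq (h : Cps A C P) : (C.card : ℤ) = ∑ X ∈ P, (X.card : ℤ) := by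
  rw [← Nat.cast_sum, Finset.card_eq_sum_ones, h.sum]
  congr 1
  exact Finset.sum_congr rfl fun X hX => (Finset.card_eq_sum_ones X).symm

/-- Double counting of the adjacent pairs (component, outer vertex). -/
theorem nS_sum (h : Cps A C P) (U : Finset V) :
    ∑ X ∈ P, ((nS A U X).card : ℤ) = ∑ y ∈ U \ C, (ct A P y : ℤ) := by
  classical
  have h1 : ∀ X ∈ P, (nS A U X).card = ∑ y ∈ U \ C, if To A X y then 1 else 0 := by
    intro X hX
    rw [← Finset.card_filter]
    congr 1
    ext y
    rw [mem_nS, Finset.mem_filter, Finset.mem_sdiff, and_assoc]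
    constructor
    · rintro ⟨h1, h2, h3⟩
      refine ⟨h1, ?_, h3⟩
      intro hy
      obtain ⟨Y, hY, hyY⟩ := h.cov y hy
      obtain ⟨x, hx, hxy⟩ := h3
      by_cases hXY : X = Y
      · rw [hXY] at h2
        exact h2 hyY
      · exact (h.sep X hX Y hY hXY x hx y hyY).2 hxy
    · rintro ⟨h1, h2, h3⟩
      exact ⟨h1, fun h' => h2 (h.sub X hX h'), h3⟩
  rw [← Nat.cast_sum, Finset.sum_congr rfl h1, Finset.sum_comm, Nat.cast_sum]
  refine Finset.sum_congr rfl fun y hy => ?_
  rw [← Finset.card_filter]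
  rfl

theorem to_iff (h : Cps A C P) {y : V} : To A C y ↔ 0 < ct A P y := by
  rw [ct_pos]
  constructor
  · rintro ⟨x, hx, hxy⟩
    obtain ⟨X, hX, hxX⟩ := h.cov x hx
    exact ⟨X, hX, x, hxX, hxy⟩
  · rintro ⟨X, hX, x, hx, hxy⟩
    exact ⟨x, h.sub X hX hx, hxy⟩

end Cps

end Pool.Agent.MP19e880.G2.Idn
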