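import Pool.Agent.Lib.MP_19e880_co_G2.Defs

/-!
The local inequality: a lower bound for `Lam`.
-/

set_option autoImplicit false
set_option linter.unusedSectionVars false

namespace Pool.Agent.MP19e880.G2

open Pool.Agent.MP19e880.Low

variable {V : Type} [DecidableEq V]

open Classical in
/-- The local structure at a vertex of a sphere. -/
structure Loc (A : V → V → Prop) (m : ℕ) (S O X C : Finset V) (𝒞 𝒳 : Finset (Finset V)) :
    Prop where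
  symm : ∀ x y, A x y → A y x
  irr : ∀ x, ¬ A x x
  XS : X ⊆ S
  dSO : ∀ y ∈ O, y ∉ S
  dCS : ∀ y ∈ C, y ∉ S
  dCO : ∀ y ∈ C, y ∉ O
  dC : Dec A C 𝒞
  dX : Dec A X 𝒳
  wcn : ∀ x ∈ X, Cn A (nb A (C ∪ O) x)
  w1 : ∀ x ∈ X, ∃ w ∈ C ∪ O, A x w
  w2 : ∀ x ∈ X, ∀ y ∈ S, A x y → ∃ w ∈ C ∪ O, A x w ∧ A y w
  K : ∀ x ∈ X, ∀ D ∈ 𝒞, ad A D x →
    2 * m ≤ ((S ∪ O).filter (fun y => A x y ∧ ad A D y)).card
  Sp : ∀ Y : Finset V, Y ⊆ X → Y.Nonempty → 2 * m ≤ (oN A S Y).card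
  conn : Cn A (X ∪ C)
  ne : X.Nonempty

theorem mem_oNl {A : V → V → Prop} {U C : Finset V} {y : V} :
    y ∈ oN A U C ↔ y ∈ U ∧ y ∉ C ∧ ad A C y := by
  classical
  unfold oN
  rw [Finset.mem_filter, Finset.mem_sdiff, and_assoc]

namespace Loc

variable {A : V → V → Prop} {m : ℕ} {S O X C : Finset V} {𝒞 𝒳 : Finset (Finset V)}

open Classical in
/-- The members of `X` without neighbours in `O`. -/
noncomputable def Xi (A : V → V → Prop) (O X : Finset V) : Finset V :=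
  X.filter (fun x => ∀ w ∈ O, ¬ A x w)

theorem mem_Xi {x : V} : x ∈ Xi A O X ↔ x ∈ X ∧ ∀ w ∈ O, ¬ A x w := by
  classical
  unfold Xi
  rw [Finset.mem_filter]

/-- If `D` is adjacent to `x` and the neighbours of `x` in `C ∪ O` are not all in `D`, then some
neighbour of `x` in `O` is adjacent to `D`. -/
theorem exit (h : Loc A m S O X C 𝒞 𝒳) {x w : V} (hx : x ∈ X) {D : Finset V} (hD : D ∈ 𝒞)
    (hDx : ad A D x) (hw : w ∈ C ∪ O) (hxw : A x w) (hwD : w ∉ D) :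
    ∃ z ∈ O, A x z ∧ ad A D z := by
  obtain ⟨a, haD, hax⟩ := hDx
  have haC : a ∈ C := (h.dC.mem a).mpr ⟨D, hD, haD⟩
  obtain ⟨p, hp, q, hq, hqD, hpq⟩ := h.wcn x hx (nb A (C ∪ O) x ∩ D) Finset.inter_subset_left
    ⟨a, Finset.mem_inter.mpr ⟨mem_nb.mpr ⟨Finset.mem_union_left _ haC, h.symm _ _ hax⟩, haD⟩⟩ (by
      intro he
      have : w ∈ nb A (C ∪ O) x ∩ D := by
        rw [he]
        exact mem_nb.mpr ⟨hw, hxw⟩
      exact hwD (Finset.mem_inter.mp this).2)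
  rw [Finset.mem_inter] at hp hqD
  rw [mem_nb] at hq
  have hqD' : q ∉ D := fun h' => hqD ⟨mem_nb.mpr hq, h'⟩
  rcases Finset.mem_union.mp hq.1 with hqC | hqO
  · obtain ⟨D', hD', hqD2⟩ := (h.dC.mem q).mp hqC
    have hne : D ≠ D' := by
      rintro rfl
      exact hqD' hqD2
    exact absurd hpq (h.dC.sep D hD D' hD' hne p hp.2 q hqD2).2
  · exact ⟨q, hqO, hq.2, p, hp.2, hpq⟩

theorem int_unique (h : Loc A m S O X C 𝒞 𝒳) {x : V} (hx : x ∈ Xi A O X) {D D' : Finset V}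
    (hD : D ∈ 𝒞) (hD' : D' ∈ 𝒞) (hDx : ad A D x) (hDx' : ad A D' x) : D = D' := by
  rw [mem_Xi] at hx
  by_contra hne
  obtain ⟨b, hb, hbx⟩ := hDx'
  have hbC : b ∈ C := (h.dC.mem b).mpr ⟨D', hD', hb⟩
  obtain ⟨z, hz, hxz, _⟩ := h.exit hx.1 hD hDx (Finset.mem_union_left _ hbC) (h.symm _ _ hbx)
    (fun h' => (h.dC.sep D hD D' hD' hne b h' b hb).1 rfl)
  exact hx.2 z hz hxz

theorem int_exists (h : Loc A m S O X C 𝒞 𝒳) {x : V} (hx : x ∈ Xi A O X) :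
    ∃ D ∈ 𝒞, ad A D x := by
  rw [mem_Xi] at hx
  obtain ⟨w, hw, hxw⟩ := h.w1 x hx.1
  rcases Finset.mem_union.mp hw with hwC | hwO
  · obtain ⟨D, hD, hwD⟩ := (h.dC.mem w).mp hwC
    exact ⟨D, hD, w, hwD, h.symm _ _ hxw⟩
  · exact absurd hxw (hx.2 w hwO)

theorem int_adj (h : Loc A m S O X C 𝒞 𝒳) {x y : V} (hx : x ∈ Xi A O X) (hy : y ∈ S)
    (hxy : A x y) {D : Finset V} (hD : D ∈ 𝒞) (hDx : ad A D x) : ad A D y := by
  have hx' := mem_Xi.mp hx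
  obtain ⟨w, hw, hxw, hyw⟩ := h.w2 x hx'.1 y hy hxy
  rcases Finset.mem_union.mp hw with hwC | hwO
  · obtain ⟨D', hD', hwD⟩ := (h.dC.mem w).mp hwC
    have : D = D' := h.int_unique hx hD hD' hDx ⟨w, hwD, h.symm _ _ hxw⟩
    subst this
    exact ⟨w, hwD, h.symm _ _ hyw⟩
  · exact absurd hxw (hx'.2 w hwO)

/-- A component of `Xi` sees only one member of `𝒞`. -/
theorem int_comp (h : Loc A m S O X C 𝒞 𝒳) {I : Finset V} (hI : I ⊆ Xi A O X) (hcn : Cn A I)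
    {x y : V} (hx : x ∈ I) (hy : y ∈ I) {D : Finset V} (hD : D ∈ 𝒞) (hDx : ad A D x) :
    ad A D y := by
  classical
  by_contra hcon
  obtain ⟨a, ha, b, hb, hb2, hab⟩ := hcn (I.filter (fun y => ad A D y)) (Finset.filter_subset _ _)
    ⟨x, Finset.mem_filter.mpr ⟨hx, hDx⟩⟩ (by
      intro he
      have h1 : y ∈ I.filter (fun y => ad A D y) := by
        rw [he]
        exact hy
      exact hcon (Finset.mem_filter.mp h1).2)
  rw [Finset.mem_filter] at ha hb2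
  exact hb2 ⟨hb, h.int_adj (hI ha.1) (h.XS (mem_Xi.mp (hI hb)).1) hab hD ha.2⟩

end Loc

end Pool.Agent.MP19e880.G2
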