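import Pool.Agent.Lib.MP_19e880_co_G2.Defs

/-!
Removing from a vertex set the neighbours of an outside vertex: the exact identity.
-/

set_option autoImplicit false
set_option linter.unusedSectionVars false

namespace Pool.Agent.MP19e880.G2

open Pool.Agent.MP19e880.Low

variable {V : Type} [DecidableEq V] {A : V → V → Prop}

namespace StepAux

open Classical in
/-- The indicator of a proposition, as an integer. -/
noncomputable def ind (p : Prop) : ℤ := if p then 1 else 0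

theorem ind_true {p : Prop} (h : p) : ind p = 1 := by
  unfold ind
  rw [if_pos h]

theorem ind_false {p : Prop} (h : ¬ p) : ind p = 0 := by
  unfold ind
  rw [if_neg h]

theorem card_filter_eq (S : Finset V) (p : V → Prop) [DecidablePred p] :
    ((S.filter p).card : ℤ) = ∑ y ∈ S, ind (p y) := by
  rw [Finset.card_filter]
  push_cast
  refine Finset.sum_congr rfl fun y _ => ?_
  by_cases h : p y
  · rw [ind_true h, if_pos h]
  · rw [ind_false h, if_neg h]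

theorem card_nb_eq (S : Finset V) (x : V) : ((nb A S x).card : ℤ) = ∑ y ∈ S, ind (A x y) := by
  classical
  unfold nb
  exact card_filter_eq S _

theorem card_oN_eq (U C : Finset V) : ((oN A U C).card : ℤ) = ∑ y ∈ U \ C, ind (ad A C y) := by
  classical
  unfold oN
  exact card_filter_eq _ _

theorem sum_C {C : Finset V} (r : V) (f : V → ℤ) :
    ∑ y ∈ C, f y = ∑ y ∈ C \ nb A C r, f y + ∑ y ∈ nb A C r, f y := by
  have h : nb A C r ⊆ C := by
    intro y hy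
    exact (mem_nb.mp hy).1
  exact (Finset.sum_sdiff h).symm

theorem nb_sub {U C : Finset V} (hC : C ⊆ U) (r : V) : nb A C r ⊆ nb A U r := by
  intro y hy
  rw [mem_nb] at hy ⊢
  exact ⟨hC hy.1, hy.2⟩

theorem sum_S {U C : Finset V} (hC : C ⊆ U) (r : V) (f : V → ℤ) :
    ∑ y ∈ nb A U r, f y = ∑ y ∈ nb A U r \ nb A C r, f y + ∑ y ∈ nb A C r, f y :=
  (Finset.sum_sdiff (nb_sub hC r)).symm

theorem sum_UC (hi : ∀ x, ¬ A x x) {U C : Finset V} {r : V} (hr : r ∈ U) (hrC : r ∉ C)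
    (f : V → ℤ) :
    ∑ y ∈ U \ C, f y = ∑ y ∈ nb A U r \ nb A C r, f y + f r + ∑ y ∈ na A U r \ C, f y := by
  have h : U \ C = (nb A U r \ nb A C r) ∪ ({r} ∪ (na A U r \ C)) := by
    ext y
    simp only [Finset.mem_sdiff, Finset.mem_union, Finset.mem_singleton, mem_nb, mem_na]
    by_cases h1 : y = r
    · subst h1
      simp [hr, hrC]
    · by_cases h2 : A r y
      · simp only [h1, h2]
        tauto
      · simp only [h1, h2]
        tauto
  have hd2 : Disjoint ({r} : Finset V) (na A U r \ C) := by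
    rw [Finset.disjoint_singleton_left, Finset.mem_sdiff, mem_na]
    tauto
  have hd1 : Disjoint (nb A U r \ nb A C r) ({r} ∪ (na A U r \ C)) := by
    rw [Finset.disjoint_left]
    intro y hy hy2
    rw [Finset.mem_sdiff, mem_nb] at hy
    rw [Finset.mem_union, Finset.mem_singleton, Finset.mem_sdiff, mem_na] at hy2
    rcases hy2 with rfl | hy2
    · exact hi _ hy.1.2
    · exact hy2.1.2.2 hy.1.2
  rw [h, Finset.sum_union hd1, Finset.sum_union hd2, Finset.sum_singleton]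
  ring

theorem sum_UC' {U C : Finset V} (hC : C ⊆ U) (r : V) (f : V → ℤ) :
    ∑ y ∈ U \ (C \ nb A C r), f y = ∑ y ∈ nb A C r, f y + ∑ y ∈ U \ C, f y := by
  have h : U \ (C \ nb A C r) = nb A C r ∪ (U \ C) := by
    ext y
    simp only [Finset.mem_sdiff, Finset.mem_union, mem_nb]
    by_cases h1 : y ∈ C
    · have := hC h1
      tauto
    · tauto
  have hd : Disjoint (nb A C r) (U \ C) := by
    rw [Finset.disjoint_left]
    intro y hy hy2
    exact (Finset.mem_sdiff.mp hy2).2 (mem_nb.mp hy).1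
  rw [h, Finset.sum_union hd]

theorem sum_U {U C : Finset V} (hC : C ⊆ U) (f : V → ℤ) :
    ∑ y ∈ U, f y = ∑ y ∈ C, f y + ∑ y ∈ U \ C, f y := by
  rw [← Finset.sum_sdiff hC]
  ring

theorem ee_comm (hs : ∀ x y, A x y → A y x) (P Q : Finset V) :
    ∑ x ∈ P, ∑ y ∈ Q, ind (A x y) = ∑ x ∈ Q, ∑ y ∈ P, ind (A x y) := by
  rw [Finset.sum_comm]
  refine Finset.sum_congr rfl fun y _ => Finset.sum_congr rfl fun x _ => ?_
  have : A x y ↔ A y x := ⟨hs x y, hs y x⟩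
  rw [this]

theorem H_eq (m : ℕ) (U C : Finset V) :
    H A m U C = ∑ x ∈ C, ((∑ y ∈ U, ind (A x y)) + (∑ y ∈ U \ C, ind (A x y)))
      - (4 * (m : ℤ) - 6) * (C.card : ℤ) - 2 * ∑ y ∈ U \ C, ind (ad A C y) := by
  unfold H
  simp only [card_nb_eq, card_oN_eq]

end StepAux

open StepAux

open Classical in
/-- Removing from `C` the neighbours of a vertex `r` outside `C`. -/
theorem H_step (hs : ∀ x y, A x y → A y x) (hi : ∀ x, ¬ A x x) (m : ℕ) {U C : Finset V}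
    (hC : C ⊆ U) {r : V} (hr : r ∈ U) (hrC : r ∉ C) (had : ad A C r) :
    H A (m + 1) U C = H A (m + 1) U (C \ nb A C r) + H A m (nb A U r) (nb A C r) - 2
      + 2 * ((((nb A U r) \ (nb A C r)).filter
          (fun y => ad A (nb A C r) y ∧ ad A (C \ nb A C r) y)).card : ℤ)
      - 2 * (((nb A C r).filter (fun x => ¬ ad A (C \ nb A C r) x)).card : ℤ)
      + 2 * ∑ y ∈ (na A U r) \ C, (((nb A (nb A C r) y).card : ℤ)
          - (if ad A (nb A C r) y ∧ ¬ ad A (C \ nb A C r) y then 1 else 0)) := by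
  have hite : ∀ y, (if ad A (nb A C r) y ∧ ¬ ad A (C \ nb A C r) y then (1 : ℤ) else 0)
      = ind (ad A (nb A C r) y ∧ ¬ ad A (C \ nb A C r) y) := by
    intro y
    by_cases h : ad A (nb A C r) y ∧ ¬ ad A (C \ nb A C r) y
    · rw [ind_true h, if_pos h]
    · rw [ind_false h, if_neg h]
  have hadX : ad A (nb A C r) r := by
    obtain ⟨x, hx, hxr⟩ := had
    exact ⟨x, mem_nb.mpr ⟨hx, hs _ _ hxr⟩, hxr⟩
  have hadC' : ¬ ad A (C \ nb A C r) r := by
    rintro ⟨x, hx, hxr⟩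
    rw [Finset.mem_sdiff, mem_nb] at hx
    exact hx.2 ⟨hx.1, hs _ _ hxr⟩
  have hadC : ∀ y, ad A C y ↔ (ad A (nb A C r) y ∨ ad A (C \ nb A C r) y) := by
    intro y
    constructor
    · rintro ⟨x, hx, hxy⟩
      by_cases h : x ∈ nb A C r
      · exact Or.inl ⟨x, h, hxy⟩
      · exact Or.inr ⟨x, Finset.mem_sdiff.mpr ⟨hx, h⟩, hxy⟩
    · rintro (⟨x, hx, hxy⟩ | ⟨x, hx, hxy⟩)
      · exact ⟨x, (mem_nb.mp hx).1, hxy⟩
      · exact ⟨x, (Finset.mem_sdiff.mp hx).1, hxy⟩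
  -- the pieces
  have hXr : ∑ x ∈ nb A C r, ind (A x r) = ((nb A C r).card : ℤ) := by
    rw [Finset.sum_congr rfl fun x hx => ind_true (hs _ _ (mem_nb.mp hx).2)]
    simp
  have e1 : ∑ x ∈ C, ((∑ y ∈ U, ind (A x y)) + (∑ y ∈ U \ C, ind (A x y)))
      = ∑ x ∈ C \ nb A C r, ∑ y ∈ U, ind (A x y)
        + ∑ x ∈ C \ nb A C r, ∑ y ∈ U \ C, ind (A x y)
        + ∑ x ∈ nb A C r, ∑ y ∈ C \ nb A C r, ind (A x y)
        + ∑ x ∈ nb A C r, ∑ y ∈ nb A C r, ind (A x y)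
        + 2 * ∑ x ∈ nb A C r, ∑ y ∈ nb A U r \ nb A C r, ind (A x y)
        + 2 * ((nb A C r).card : ℤ)
        + 2 * ∑ x ∈ nb A C r, ∑ y ∈ na A U r \ C, ind (A x y) := by
    rw [sum_C (A := A) (C := C) r, Finset.sum_add_distrib, Finset.sum_add_distrib]
    have h1 : ∑ x ∈ nb A C r, ∑ y ∈ U, ind (A x y)
        = ∑ x ∈ nb A C r, ((∑ y ∈ C \ nb A C r, ind (A x y)) + (∑ y ∈ nb A C r, ind (A x y))
          + (∑ y ∈ nb A U r \ nb A C r, ind (A x y) + ind (A x r)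
            + ∑ y ∈ na A U r \ C, ind (A x y))) := by
      refine Finset.sum_congr rfl fun x _ => ?_
      rw [sum_U hC, sum_C (A := A) (C := C) r, sum_UC hi hr hrC]
    have h2 : ∑ x ∈ nb A C r, ∑ y ∈ U \ C, ind (A x y)
        = ∑ x ∈ nb A C r, (∑ y ∈ nb A U r \ nb A C r, ind (A x y) + ind (A x r)
            + ∑ y ∈ na A U r \ C, ind (A x y)) := by
      refine Finset.sum_congr rfl fun x _ => ?_
      rw [sum_UC hi hr hrC]
    rw [h1, h2]
    simp only [Finset.sum_add_distrib]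
    rw [hXr]
    ring
  have e2 : ∑ x ∈ C \ nb A C r, ((∑ y ∈ U, ind (A x y)) + (∑ y ∈ U \ (C \ nb A C r), ind (A x y)))
      = ∑ x ∈ C \ nb A C r, ∑ y ∈ U, ind (A x y)
        + ∑ x ∈ nb A C r, ∑ y ∈ C \ nb A C r, ind (A x y)
        + ∑ x ∈ C \ nb A C r, ∑ y ∈ U \ C, ind (A x y) := by
    rw [Finset.sum_add_distrib]
    have h1 : ∑ x ∈ C \ nb A C r, ∑ y ∈ U \ (C \ nb A C r), ind (A x y)
        = ∑ x ∈ C \ nb A C r, ((∑ y ∈ nb A C r, ind (A x y)) + ∑ y ∈ U \ C, ind (A x y)) := by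
      refine Finset.sum_congr rfl fun x _ => ?_
      rw [sum_UC' hC]
    rw [h1, Finset.sum_add_distrib, ee_comm hs (C \ nb A C r) (nb A C r)]
    ring
  have e3 : ∑ x ∈ nb A C r, ((∑ y ∈ nb A U r, ind (A x y))
        + (∑ y ∈ nb A U r \ nb A C r, ind (A x y)))
      = ∑ x ∈ nb A C r, ∑ y ∈ nb A C r, ind (A x y)
        + 2 * ∑ x ∈ nb A C r, ∑ y ∈ nb A U r \ nb A C r, ind (A x y) := by
    rw [Finset.sum_add_distrib]
    have h1 : ∑ x ∈ nb A C r, ∑ y ∈ nb A U r, ind (A x y)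
        = ∑ x ∈ nb A C r, ((∑ y ∈ nb A U r \ nb A C r, ind (A x y))
          + ∑ y ∈ nb A C r, ind (A x y)) := by
      refine Finset.sum_congr rfl fun x _ => ?_
      rw [sum_S hC]
    rw [h1, Finset.sum_add_distrib]
    ring
  have e4 : ∑ y ∈ na A U r \ C, ∑ x ∈ nb A C r, ind (A y x)
      = ∑ x ∈ nb A C r, ∑ y ∈ na A U r \ C, ind (A x y) := ee_comm hs _ _
  have ec : (C.card : ℤ) = ((C \ nb A C r).card : ℤ) + ((nb A C r).card : ℤ) := by
    have h := sum_C (A := A) (C := C) r (fun _ => (1 : ℤ))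
    simpa using h
  -- the neighbourhoods
  have f1 : ∑ y ∈ U \ C, ind (ad A C y)
      = ∑ y ∈ nb A U r \ nb A C r, ind (ad A C y) + 1 + ∑ y ∈ na A U r \ C, ind (ad A C y) := by
    rw [sum_UC hi hr hrC, ind_true ((hadC r).mpr (Or.inl hadX))]
  have f2 : ∑ y ∈ U \ (C \ nb A C r), ind (ad A (C \ nb A C r) y)
      = ∑ y ∈ nb A C r, ind (ad A (C \ nb A C r) y)
        + (∑ y ∈ nb A U r \ nb A C r, ind (ad A (C \ nb A C r) y)
          + ∑ y ∈ na A U r \ C, ind (ad A (C \ nb A C r) y)) := by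
    rw [sum_UC' hC, sum_UC hi hr hrC, ind_false hadC']
    ring
  have f3 : ∑ y ∈ nb A U r \ nb A C r, ind (ad A C y)
      = ∑ y ∈ nb A U r \ nb A C r, ind (ad A (C \ nb A C r) y)
        + ∑ y ∈ nb A U r \ nb A C r, ind (ad A (nb A C r) y)
        - ∑ y ∈ nb A U r \ nb A C r, ind (ad A (nb A C r) y ∧ ad A (C \ nb A C r) y) := by
    rw [← Finset.sum_add_distrib, ← Finset.sum_sub_distrib]
    refine Finset.sum_congr rfl fun y _ => ?_
    rw [hadC y]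
    by_cases h1 : ad A (nb A C r) y <;> by_cases h2 : ad A (C \ nb A C r) y <;>
      simp [ind, h1, h2]
  have f4 : ∑ y ∈ na A U r \ C, ind (ad A C y)
      = ∑ y ∈ na A U r \ C, ind (ad A (C \ nb A C r) y)
        + ∑ y ∈ na A U r \ C, ind (ad A (nb A C r) y ∧ ¬ ad A (C \ nb A C r) y) := by
    rw [← Finset.sum_add_distrib]
    refine Finset.sum_congr rfl fun y _ => ?_
    rw [hadC y]
    by_cases h1 : ad A (nb A C r) y <;> by_cases h2 : ad A (C \ nb A C r) y <;>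
      simp [ind, h1, h2]
  have f5 : ∑ y ∈ nb A C r, ind (¬ ad A (C \ nb A C r) y)
      = ((nb A C r).card : ℤ) - ∑ y ∈ nb A C r, ind (ad A (C \ nb A C r) y) := by
    have h : ((nb A C r).card : ℤ) = ∑ y ∈ nb A C r, (1 : ℤ) := by simp
    rw [h, ← Finset.sum_sub_distrib]
    refine Finset.sum_congr rfl fun y _ => ?_
    by_cases h2 : ad A (C \ nb A C r) y <;> simp [ind, h2]
  have hnb : ∀ y, ((nb A (nb A C r) y).card : ℤ) = ∑ x ∈ nb A C r, ind (A y x) :=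
    fun y => card_nb_eq _ y
  simp only [hite, card_filter_eq, hnb, H_eq]
  rw [Finset.sum_sub_distrib, e1, e2, e3, e4, ec, f1, f2, f3, f4, f5]
  push_cast
  ring

theorem ad_iff_cnt {C : Finset V} {𝒞 : Finset (Finset V)} (hD : Dec A C 𝒞) (y : V) :
    ad A C y ↔ 1 ≤ cnt A 𝒞 y := by
  classical
  unfold cnt
  rw [Nat.succ_le_iff, Finset.card_pos]
  constructor
  · rintro ⟨x, hx, hxy⟩
    obtain ⟨B, hB, hxB⟩ := (hD.mem x).mp hx
    exact ⟨B, Finset.mem_filter.mpr ⟨hB, x, hxB, hxy⟩⟩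
  · rintro ⟨B, hB⟩
    obtain ⟨hB, x, hxB, hxy⟩ := Finset.mem_filter.mp hB
    exact ⟨x, (hD.mem x).mpr ⟨B, hB, hxB⟩, hxy⟩

theorem ad_iff_nb (hs : ∀ x y, A x y → A y x) (X : Finset V) (y : V) :
    ad A X y ↔ 1 ≤ (nb A X y).card := by
  rw [Nat.succ_le_iff, Finset.card_pos]
  constructor
  · rintro ⟨x, hx, hxy⟩
    exact ⟨x, mem_nb.mpr ⟨hx, hs _ _ hxy⟩⟩
  · rintro ⟨x, hx⟩
    exact ⟨x, (mem_nb.mp hx).1, hs _ _ (mem_nb.mp hx).2⟩

/-- The exact identity, from the identity for components. -/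
theorem H_total_of (hs : ∀ x y, A x y → A y x) (hi : ∀ x, ¬ A x x) (m : ℕ) {U C : Finset V}
    (hC : C ⊆ U) {r : V} (hr : r ∈ U) (hrC : r ∉ C) (had : ad A C r)
    {𝒞 𝒳 : Finset (Finset V)} (h𝒞 : Dec A (C \ nb A C r) 𝒞) (h𝒳 : Dec A (nb A C r) 𝒳)
    (hd1 : H A (m + 1) U (C \ nb A C r) = ∑ B ∈ 𝒞, H A (m + 1) U B
      + 2 * ∑ y ∈ U \ (C \ nb A C r), ((cnt A 𝒞 y - 1 : ℕ) : ℤ))
    (hd2 : H A m (nb A U r) (nb A C r) = ∑ B ∈ 𝒳, H A m (nb A U r) B
      + 2 * ∑ y ∈ nb A U r \ nb A C r, ((cnt A 𝒳 y - 1 : ℕ) : ℤ)) :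
    H A (m + 1) U C = ∑ B ∈ 𝒞, H A (m + 1) U B + ∑ B ∈ 𝒳, H A m (nb A U r) B - 2
      + 2 * Lam A (nb A U r) (na A U r \ C) (nb A C r) 𝒞 𝒳 := by
  classical
  have hcr : cnt A 𝒞 r = 0 := by
    have h : ¬ ad A (C \ nb A C r) r := by
      rintro ⟨x, hx, hxr⟩
      rw [Finset.mem_sdiff, mem_nb] at hx
      exact hx.2 ⟨hx.1, hs _ _ hxr⟩
    rw [ad_iff_cnt h𝒞] at h
    omega
  rw [H_step hs hi m hC hr hrC had, hd1, hd2, sum_UC' hC, sum_UC hi hr hrC, hcr]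
  unfold Lam
  have g1 : ∑ x ∈ nb A C r, ((cnt A 𝒞 x : ℤ) - 1)
      = ∑ x ∈ nb A C r, ((cnt A 𝒞 x - 1 : ℕ) : ℤ)
        - (((nb A C r).filter (fun x => ¬ ad A (C \ nb A C r) x)).card : ℤ) := by
    rw [card_filter_eq, ← Finset.sum_sub_distrib]
    refine Finset.sum_congr rfl fun x _ => ?_
    by_cases h : ad A (C \ nb A C r) x
    · rw [ind_false (not_not.mpr h)]
      rw [ad_iff_cnt h𝒞] at h
      omega
    · rw [ind_true h]
      rw [ad_iff_cnt h𝒞] at h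
      omega
  have g2 : ∑ y ∈ nb A U r \ nb A C r, ((cnt A 𝒳 y + cnt A 𝒞 y - 1 : ℕ) : ℤ)
      = ∑ y ∈ nb A U r \ nb A C r, ((cnt A 𝒞 y - 1 : ℕ) : ℤ)
        + ∑ y ∈ nb A U r \ nb A C r, ((cnt A 𝒳 y - 1 : ℕ) : ℤ)
        + ((((nb A U r) \ (nb A C r)).filter
          (fun y => ad A (nb A C r) y ∧ ad A (C \ nb A C r) y)).card : ℤ) := by
    rw [card_filter_eq, ← Finset.sum_add_distrib, ← Finset.sum_add_distrib]
    refine Finset.sum_congr rfl fun y _ => ?_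
    by_cases h : ad A (nb A C r) y ∧ ad A (C \ nb A C r) y
    · rw [ind_true h]
      rw [ad_iff_cnt h𝒞, ad_iff_cnt h𝒳] at h
      omega
    · rw [ind_false h]
      rw [ad_iff_cnt h𝒞, ad_iff_cnt h𝒳] at h
      omega
  have g3 : ∑ y ∈ na A U r \ C, (((nb A (nb A C r) y).card + cnt A 𝒞 y - 1 : ℕ) : ℤ)
      = ∑ y ∈ na A U r \ C, ((cnt A 𝒞 y - 1 : ℕ) : ℤ)
        + ∑ y ∈ (na A U r) \ C, (((nb A (nb A C r) y).card : ℤ)
          - (if ad A (nb A C r) y ∧ ¬ ad A (C \ nb A C r) y then 1 else 0)) := by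
    rw [← Finset.sum_add_distrib]
    refine Finset.sum_congr rfl fun y _ => ?_
    split_ifs with h
    · rw [ad_iff_cnt h𝒞, ad_iff_nb hs] at h
      omega
    · rw [ad_iff_cnt h𝒞, ad_iff_nb hs] at h
      omega
  rw [g1, g2, g3]
  push_cast
  ring

end Pool.Agent.MP19e880.G2
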