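import Pool.Agent.Lib.MP_19e880_co_G2.Blk

/-!
The three kinds of steps.
-/

set_option autoImplicit false
set_option linter.unusedSectionVars false

namespace Pool.Agent.MP19e880.G2

open Pool.Agent.MP19e880.Low

variable {V : Type} [DecidableEq V]

namespace Loc

variable {A : V → V → Prop} {m : ℕ} {S O X C : Finset V} {𝒞 𝒳 𝒵 : Finset (Finset V)}

theorem blk_X (h𝒵 : Dec A (Xi A O X) 𝒵) {Y : Finset V} (hY : Y ⊆ X) {x : V} (hx : x ∈ X) :
    Y ∪ insert x (bI A 𝒵 Y x) ⊆ X := by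
  intro y hy
  rw [Finset.mem_union, Finset.mem_insert] at hy
  rcases hy with hy | rfl | hy
  · exact hY hy
  · exact hx
  · exact (mem_Xi.mp (bI_Xi h𝒵 hy)).1

theorem sum_blk (h : Loc A m S O X C 𝒞 𝒳) (h𝒵 : Dec A (Xi A O X) 𝒵) {Y : Finset V}
    (hY : St A m S O X 𝒞 𝒳 𝒵 Y) {x : V} (hxY : x ∉ Y) (hx : x ∉ Xi A O X) :
    ∑ y ∈ (Y ∪ insert x (bI A 𝒵 Y x)) \ Y, (vl A S 𝒞 𝒳 (Y ∪ insert x (bI A 𝒵 Y x)) y
      - vl A S 𝒞 𝒳 Y y) = vl A S 𝒞 𝒳 (Y ∪ insert x (bI A 𝒵 Y x)) x - vl A S 𝒞 𝒳 Y x := by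
  refine Finset.sum_eq_single x ?_ ?_
  · intro y hy hyx
    rw [Finset.mem_sdiff, Finset.mem_union, Finset.mem_insert] at hy
    rcases hy.1 with h1 | h1 | h1
    · exact absurd h1 hy.2
    · exact absurd h1 hyx
    · have h2 := h.bI_not hY h1
      exact h.vl_bI (bI_Xi h𝒵 h1) h2.1 h2.2 (by
        rw [Finset.mem_union, Finset.mem_insert]
        exact Or.inr (Or.inr h1))
  · intro h'
    exfalso
    apply h'
    rw [Finset.mem_sdiff, Finset.mem_union, Finset.mem_insert]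
    exact ⟨Or.inr (Or.inl rfl), hxY⟩

theorem ic_blk (h : Loc A m S O X C 𝒞 𝒳) (h𝒵 : Dec A (Xi A O X) 𝒵) {Y : Finset V}
    {x : V} (hxX : x ∈ X) :
    ic A 𝒞 (Y ∪ insert x (bI A 𝒵 Y x)) x = ic A 𝒞 Y x
      + (JJ A 𝒞 Y (Y ∪ insert x (bI A 𝒵 Y x))).card := by
  classical
  rw [ic_add (Finset.subset_union_left : Y ⊆ Y ∪ insert x (bI A 𝒵 Y x))]
  congr 2
  rw [Finset.filter_eq_self]
  intro D hD
  exact h.JJ_adj h𝒵 hxX hD

/-- The block lies in one component of `X`. -/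
theorem blk_comp (h : Loc A m S O X C 𝒞 𝒳) (h𝒵 : Dec A (Xi A O X) 𝒵) {Y : Finset V}
    {x : V} {B : Finset V} (hB : B ∈ 𝒳) (hx : x ∈ B) :
    insert x (bI A 𝒵 Y x) ⊆ B := by
  intro y hy
  rw [Finset.mem_insert, mem_bI] at hy
  rcases hy with rfl | ⟨I, hI, ⟨w, hw, hwx⟩, _, hyI⟩
  · exact hx
  · have hIX : I ⊆ X := fun z hz => (mem_Xi.mp ((h𝒵.mem z).mpr ⟨I, hI, hz⟩)).1
    obtain ⟨B', hB', hwB'⟩ := (h.dX.mem w).mp (hIX hw)
    have hBB : B' = B := by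
      by_contra hne
      exact (h.dX.sep B' hB' B hB hne w hwB' x hx).2 hwx
    subst hBB
    exact h.comp_sub hIX (h𝒵.cn I hI) hB hw hwB' hyI

/-- Adding a vertex adjacent to the part of `Y` in its component. -/
theorem step3 (h : Loc A m S O X C 𝒞 𝒳) (h𝒵 : Dec A (Xi A O X) 𝒵) {Y : Finset V}
    (hY : St A m S O X 𝒞 𝒳 𝒵 Y) {B : Finset V} (hB : B ∈ 𝒳) {a x : V} (ha : a ∈ B) (haY : a ∈ Y)
    (hxB : x ∈ B) (hxY : x ∉ Y) (hax : A a x) :
    ∃ Y', St A m S O X 𝒞 𝒳 𝒵 Y' ∧ Y ⊂ Y' := by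
  classical
  have hxX : x ∈ X := (h.dX.mem x).mpr ⟨B, hB, hxB⟩
  have hx : x ∉ Xi A O X := by
    intro h'
    obtain ⟨I, hI, hxI⟩ := (h𝒵.mem x).mp h'
    exact hxY (hY.inv I hI a haY (Or.inr ⟨x, hxI, h.symm _ _ hax⟩) hxI)
  have hxO : ∃ w ∈ O, A x w := by
    by_contra hcon
    push Not at hcon
    exact hx (mem_Xi.mpr ⟨hxX, hcon⟩)
  have hYs : Y ⊆ Y ∪ insert x (bI A 𝒵 Y x) := Finset.subset_union_left
  have hY's : Y ∪ insert x (bI A 𝒵 Y x) ⊆ X := blk_X h𝒵 hY.sub hxX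
  -- the extra vertex of `O`
  obtain ⟨z, hzO, hxz, hz1⟩ : ∃ z ∈ O, A x z ∧ 1 ≤ av A S 𝒳 Y z + ic A 𝒞 Y z := by
    obtain ⟨w, hw, hxw, haw⟩ := h.w2 x hxX a (h.XS (hY.sub haY)) (h.symm _ _ hax)
    rcases Finset.mem_union.mp hw with hwC | hwO
    · obtain ⟨D, hD, hwD⟩ := (h.dC.mem w).mp hwC
      obtain ⟨o, hoO, hxo⟩ := hxO
      obtain ⟨z, hzO, hxz, hDz⟩ := h.exit hxX hD ⟨w, hwD, h.symm _ _ hxw⟩
        (Finset.mem_union_right _ hoO) hxo
        (fun h' => h.dCO o ((h.dC.mem o).mpr ⟨D, hD, h'⟩) hoO)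
      refine ⟨z, hzO, hxz, ?_⟩
      have : 1 ≤ ic A 𝒞 Y z := by
        unfold ic
        exact Finset.card_pos.mpr ⟨D, Finset.mem_filter.mpr
          ⟨hD, ⟨a, haY, w, hwD, h.symm _ _ haw⟩, hDz⟩⟩
      omega
    · refine ⟨w, hwO, hxw, ?_⟩
      have := h.av_pos hY.sub (⟨a, haY, haw⟩ : ad A Y w)
      omega
  have hzS : z ∉ S := h.dSO z hzO
  have hzY' : z ∉ Y ∪ insert x (bI A 𝒵 Y x) := fun h' => hzS (h.XS (hY's h'))
  have hblock := h.block hYs hY's {z} (by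
    intro y hy
    rw [Finset.mem_singleton] at hy
    subst hy
    refine ⟨Finset.mem_union_right _ hzO, hzY', ?_, hz1⟩
    unfold av
    rw [if_neg hzS, if_neg hzS]
    refine Finset.card_lt_card ?_
    rw [Finset.ssubset_iff_of_subset]
    · refine ⟨x, ?_, ?_⟩
      · rw [mem_nb, Finset.mem_union, Finset.mem_insert]
        exact ⟨Or.inr (Or.inl rfl), h.symm _ _ hxz⟩
      · rw [mem_nb]
        exact fun h' => hxY h'.1
    · intro y hy
      rw [mem_nb] at hy ⊢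
      exact ⟨hYs hy.1, hy.2⟩) (2 * m) (by
    intro D hD
    have hDx := h.JJ_adj h𝒵 hxX hD
    have hD' := mem_JJ.mp hD
    refine (h.Q_size h𝒵 hY hxX hx hD'.1 hDx (fun y hy _ hDy => hD'.2.2 ⟨y, hy, hDy⟩)).trans
      (Finset.card_le_card ?_)
    intro y hy
    rw [Finset.mem_filter] at hy ⊢
    refine ⟨hy.1, hy.2.1, ?_, hy.2.2.2⟩
    rcases hy.2.2.1 with h' | h'
    · exact ad_mono Finset.subset_union_right h'.2
    · exact ⟨x, Finset.mem_union_right _ (Finset.mem_insert_self _ _), h'.2⟩)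
  rw [h.sum_blk h𝒵 hY hxY hx, Finset.card_singleton] at hblock
  have hvl : ((JJ A 𝒞 Y (Y ∪ insert x (bI A 𝒵 Y x))).card : ℤ) - 1 ≤
      vl A S 𝒞 𝒳 (Y ∪ insert x (bI A 𝒵 Y x)) x - vl A S 𝒞 𝒳 Y x := by
    unfold vl
    rw [if_pos (Finset.mem_union_right _ (Finset.mem_insert_self _ _)), if_neg hxY,
      h.ic_blk h𝒵 hxX]
    have := h.av_le_one (Y := Y) hxX
    omega
  have hnP : nP 𝒳 (Y ∪ insert x (bI A 𝒵 Y x)) = nP 𝒳 Y := by
    unfold nP
    congr 1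
    refine Finset.filter_congr fun B' hB' => ?_
    constructor
    · rintro ⟨y, hy⟩
      rw [Finset.mem_inter, Finset.mem_union] at hy
      rcases hy.2 with h' | h'
      · exact ⟨y, Finset.mem_inter.mpr ⟨hy.1, h'⟩⟩
      · have hyB := h.blk_comp h𝒵 (Y := Y) hB hxB h'
        have hBB : B' = B := by
          by_contra hne
          exact (h.dX.sep B' hB' B hB hne y hy.1 y hyB).1 rfl
        subst hBB
        exact ⟨a, Finset.mem_inter.mpr ⟨ha, haY⟩⟩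
    · rintro ⟨y, hy⟩
      rw [Finset.mem_inter] at hy
      exact ⟨y, Finset.mem_inter.mpr ⟨hy.1, hYs hy.2⟩⟩
  refine ⟨Y ∪ insert x (bI A 𝒵 Y x), ⟨hY's, h.inv_step h𝒵 hY hx, ?_⟩, ?_⟩
  · rw [nI_add hYs, hnP]
    have hb := hY.bound
    push_cast
    push_cast at hblock
    nlinarith
  · rw [Finset.ssubset_iff_of_subset hYs]
    exact ⟨x, Finset.mem_union_right _ (Finset.mem_insert_self _ _), hxY⟩

theorem av_incr (h : Loc A m S O X C 𝒞 𝒳) {Y Y' : Finset V} (hYY : Y ⊆ Y') {B : Finset V}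
    (hB : B ∈ 𝒳) (hdis : ∀ y ∈ B, y ∉ Y) {y : V} (hyS : y ∈ S) (hy : ad A (B ∩ Y') y) :
    av A S 𝒳 Y y + 1 ≤ av A S 𝒳 Y' y := by
  classical
  unfold av
  rw [if_pos hyS, if_pos hyS]
  unfold pc
  refine Finset.card_lt_card ?_
  rw [Finset.ssubset_iff_of_subset]
  · refine ⟨B, Finset.mem_filter.mpr ⟨hB, hy⟩, ?_⟩
    rw [Finset.mem_filter]
    rintro ⟨_, w, hw, _⟩
    rw [Finset.mem_inter] at hw
    exact hdis w hw.1 hw.2
  · intro B' hB'
    rw [Finset.mem_filter] at hB' ⊢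
    exact ⟨hB'.1, ad_mono (Finset.inter_subset_inter_left hYY) hB'.2⟩

theorem nP_incr (h : Loc A m S O X C 𝒞 𝒳) {Y Y' : Finset V} (hYY : Y ⊆ Y') {B : Finset V}
    (hB : B ∈ 𝒳) (hdis : ∀ y ∈ B, y ∉ Y) (hsub : ∀ y ∈ Y', y ∉ Y → y ∈ B)
    (hne : ∃ y ∈ Y', y ∉ Y) :
    nP 𝒳 Y' = nP 𝒳 Y + 1 := by
  classical
  unfold nP
  have h1 : 𝒳.filter (fun B => (B ∩ Y').Nonempty) =
      insert B (𝒳.filter (fun B => (B ∩ Y).Nonempty)) := by
    ext B'
    rw [Finset.mem_insert, Finset.mem_filter, Finset.mem_filter]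
    constructor
    · rintro ⟨hB', y, hy⟩
      rw [Finset.mem_inter] at hy
      by_cases hyY : y ∈ Y
      · exact Or.inr ⟨hB', y, Finset.mem_inter.mpr ⟨hy.1, hyY⟩⟩
      · left
        by_contra hne'
        exact (h.dX.sep B' hB' B hB hne' y hy.1 y (hsub y hy.2 hyY)).1 rfl
    · rintro (rfl | ⟨hB', y, hy⟩)
      · obtain ⟨y, hy, hyY⟩ := hne
        exact ⟨hB, y, Finset.mem_inter.mpr ⟨hsub y hy hyY, hy⟩⟩
      · rw [Finset.mem_inter] at hy
        exact ⟨hB', y, Finset.mem_inter.mpr ⟨hy.1, hYY hy.2⟩⟩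
  rw [h1, Finset.card_insert_of_notMem]
  rw [Finset.mem_filter]
  rintro ⟨_, y, hy⟩
  rw [Finset.mem_inter] at hy
  exact hdis y hy.1 hy.2

theorem not_ad (h : Loc A m S O X C 𝒞 𝒳) {Y : Finset V} (hY : Y ⊆ X) {B : Finset V}
    (hB : B ∈ 𝒳) (hdis : ∀ y ∈ B, y ∉ Y) {x : V} (hx : x ∈ B) : ¬ ad A Y x := by
  rintro ⟨y, hy, hyx⟩
  obtain ⟨B', hB', hyB'⟩ := (h.dX.mem y).mp (hY hy)
  have hne : B' ≠ B := by
    rintro rfl
    exact hdis y hyB' hy
  exact (h.dX.sep B' hB' B hB hne y hyB' x hx).2 hyx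

/-- Starting a new component at a vertex outside `Xi`. -/
theorem step2 (h : Loc A m S O X C 𝒞 𝒳) (h𝒵 : Dec A (Xi A O X) 𝒵) {Y : Finset V}
    (hY : St A m S O X 𝒞 𝒳 𝒵 Y) {B : Finset V} (hB : B ∈ 𝒳) (hdis : ∀ y ∈ B, y ∉ Y) {x : V}
    (hxB : x ∈ B) (hx : x ∉ Xi A O X) {D : Finset V} (hD : D ∈ 𝒞) (hDx : ad A D x)
    (hDY : Y = ∅ ∨ ∃ y ∈ Y, ad A D y) :
    ∃ Y', St A m S O X 𝒞 𝒳 𝒵 Y' ∧ Y ⊂ Y' := by
  classical
  have hxX : x ∈ X := (h.dX.mem x).mpr ⟨B, hB, hxB⟩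
  have hxY : x ∉ Y := hdis x hxB
  have hYs : Y ⊆ Y ∪ insert x (bI A 𝒵 Y x) := Finset.subset_union_left
  have hY's : Y ∪ insert x (bI A 𝒵 Y x) ⊆ X := blk_X h𝒵 hY.sub hxX
  have hxnY : ¬ ad A Y x := h.not_ad hY.sub hB hdis hxB
  have hav0 : av A S 𝒳 Y x = 0 := h.av_zero hxnY
  have hQ : ∀ D' ∈ 𝒞, ad A D' x → 2 * m ≤ ((S ∪ O).filter (fun y =>
      y ∉ Y ∪ insert x (bI A 𝒵 Y x) ∧
      ((y ∈ S ∧ ad A (insert x (bI A 𝒵 Y x)) y) ∨ (y ∈ O ∧ A x y)) ∧ ad A D' y)).card :=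
    fun D' hD' hD'x => h.Q_size h𝒵 hY hxX hx hD' hD'x
      (fun y hy hxy _ => hxnY ⟨y, hy, h.symm _ _ hxy⟩)
  have hJ : ∀ D' ∈ JJ A 𝒞 Y (Y ∪ insert x (bI A 𝒵 Y x)), 2 * m ≤ ((S ∪ O).filter
      (fun y => y ∉ Y ∪ insert x (bI A 𝒵 Y x) ∧ ad A (Y ∪ insert x (bI A 𝒵 Y x)) y ∧
        ad A D' y)).card := by
    intro D' hD'
    have hDx' := h.JJ_adj h𝒵 hxX hD'
    have hD'' := mem_JJ.mp hD'
    refine (hQ D' hD''.1 hDx').trans (Finset.card_le_card ?_)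
    intro y hy
    rw [Finset.mem_filter] at hy ⊢
    refine ⟨hy.1, hy.2.1, ?_, hy.2.2.2⟩
    rcases hy.2.2.1 with h' | h'
    · exact ad_mono Finset.subset_union_right h'.2
    · exact ⟨x, Finset.mem_union_right _ (Finset.mem_insert_self _ _), h'.2⟩
  have hnP : nP 𝒳 (Y ∪ insert x (bI A 𝒵 Y x)) = nP 𝒳 Y + 1 := by
    refine h.nP_incr hYs hB hdis ?_ ⟨x, Finset.mem_union_right _ (Finset.mem_insert_self _ _), hxY⟩
    intro y hy hyY
    rcases Finset.mem_union.mp hy with h' | h'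
    · exact absurd h' hyY
    · exact h.blk_comp h𝒵 hB hxB h'
  refine ⟨Y ∪ insert x (bI A 𝒵 Y x), ⟨hY's, h.inv_step h𝒵 hY hx, ?_⟩, ?_⟩
  · rw [nI_add hYs, hnP]
    have hb := hY.bound
    rcases hDY with hDY | hDY
    · have hblock := h.block hYs hY's ∅ (by simp) (2 * m) hJ
      rw [h.sum_blk h𝒵 hY hxY hx, Finset.card_empty] at hblock
      have hvl : ((JJ A 𝒞 Y (Y ∪ insert x (bI A 𝒵 Y x))).card : ℤ) - 1 ≤
          vl A S 𝒞 𝒳 (Y ∪ insert x (bI A 𝒵 Y x)) x - vl A S 𝒞 𝒳 Y x := by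
        unfold vl
        rw [if_pos (Finset.mem_union_right _ (Finset.mem_insert_self _ _)), if_neg hxY,
          h.ic_blk h𝒵 hxX, hav0]
        omega
      have e1 : nI A 𝒞 Y = 0 := by
        unfold nI
        rw [Finset.card_eq_zero, Finset.filter_eq_empty_iff]
        rintro D' _ ⟨y, hy, _⟩
        rw [hDY] at hy
        exact absurd hy (Finset.notMem_empty _)
      have e2 : nP 𝒳 Y = 0 := by
        unfold nP
        rw [Finset.card_eq_zero, Finset.filter_eq_empty_iff]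
        rintro D' _ ⟨y, hy⟩
        rw [hDY, Finset.inter_empty] at hy
        exact absurd hy (Finset.notMem_empty _)
      have e3 : LL A S O 𝒞 𝒳 Y = 0 := by
        unfold LL
        refine Finset.sum_eq_zero fun y _ => ?_
        unfold vl
        rw [if_neg (by rw [hDY]; exact Finset.notMem_empty _)]
        have h1 : av A S 𝒳 Y y = 0 := h.av_zero (by
          rintro ⟨w, hw, _⟩
          rw [hDY] at hw
          exact absurd hw (Finset.notMem_empty _))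
        have h2 : ic A 𝒞 Y y = 0 := by
          unfold ic
          rw [Finset.card_eq_zero, Finset.filter_eq_empty_iff]
          rintro D' _ ⟨⟨w, hw, _⟩, _⟩
          rw [hDY] at hw
          exact absurd hw (Finset.notMem_empty _)
        rw [h1, h2]
        rfl
      rw [e3] at hblock
      rw [e1, e2]
      push_cast
      push_cast at hblock
      nlinarith
    · obtain ⟨y1, hy1, hDy1⟩ := hDY
      have hicpos : ∀ y, ad A D y → 1 ≤ ic A 𝒞 Y y := by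
        intro y hy
        unfold ic
        exact Finset.card_pos.mpr ⟨D, Finset.mem_filter.mpr ⟨hD, ⟨y1, hy1, hDy1⟩, hy⟩⟩
      have hblock := h.block hYs hY's ((S ∪ O).filter (fun y =>
        y ∉ Y ∪ insert x (bI A 𝒵 Y x) ∧
        ((y ∈ S ∧ ad A (insert x (bI A 𝒵 Y x)) y) ∨ (y ∈ O ∧ A x y)) ∧ ad A D y)) (by
        intro y hy
        rw [Finset.mem_filter] at hy
        refine ⟨hy.1, hy.2.1, ?_, ?_⟩
        · rcases hy.2.2.1 with ⟨hyS, hya⟩ | ⟨hyO, hxy⟩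
          · refine h.av_incr hYs hB hdis hyS ?_
            obtain ⟨w, hw, hwy⟩ := hya
            exact ⟨w, Finset.mem_inter.mpr ⟨h.blk_comp h𝒵 hB hxB hw,
              Finset.mem_union_right _ hw⟩, hwy⟩
          · have hyS := h.dSO y hyO
            unfold av
            rw [if_neg hyS, if_neg hyS]
            refine Finset.card_lt_card ?_
            rw [Finset.ssubset_iff_of_subset]
            · refine ⟨x, ?_, ?_⟩
              · rw [mem_nb]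
                exact ⟨Finset.mem_union_right _ (Finset.mem_insert_self _ _), h.symm _ _ hxy⟩
              · rw [mem_nb]
                exact fun h' => hxY h'.1
            · intro w hw
              rw [mem_nb] at hw ⊢
              exact ⟨hYs hw.1, hw.2⟩
        · have := hicpos y hy.2.2.2
          omega) (2 * m) hJ
      rw [h.sum_blk h𝒵 hY hxY hx] at hblock
      have hvl : ((JJ A 𝒞 Y (Y ∪ insert x (bI A 𝒵 Y x))).card : ℤ) ≤
          vl A S 𝒞 𝒳 (Y ∪ insert x (bI A 𝒵 Y x)) x - vl A S 𝒞 𝒳 Y x := by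
        unfold vl
        rw [if_pos (Finset.mem_union_right _ (Finset.mem_insert_self _ _)), if_neg hxY,
          h.ic_blk h𝒵 hxX, hav0]
        have := hicpos x hDx
        omega
      have hE := hQ D hD hDx
      push_cast
      push_cast at hblock
      have hE' : (2 * (m : ℤ)) ≤ (((S ∪ O).filter (fun y =>
        y ∉ Y ∪ insert x (bI A 𝒵 Y x) ∧
        ((y ∈ S ∧ ad A (insert x (bI A 𝒵 Y x)) y) ∨ (y ∈ O ∧ A x y)) ∧ ad A D y)).card : ℤ) := by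
        exact_mod_cast hE
      nlinarith
  · rw [Finset.ssubset_iff_of_subset hYs]
    exact ⟨x, Finset.mem_union_right _ (Finset.mem_insert_self _ _), hxY⟩

end Loc

end Pool.Agent.MP19e880.G2
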