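import Pool.Agent.Lib.MP_19e880_co_G2.Local

/-!
Partial states and their values.
-/

set_option autoImplicit false
set_option linter.unusedSectionVars false

namespace Pool.Agent.MP19e880.G2

open Pool.Agent.MP19e880.Low

variable {V : Type} [DecidableEq V]

open Classical in
/-- The number of members of `𝒞` adjacent to `Y` and to `y`. -/
noncomputable def ic (A : V → V → Prop) (𝒞 : Finset (Finset V)) (Y : Finset V) (y : V) : ℕ :=
  (𝒞.filter (fun D => (∃ x ∈ Y, ad A D x) ∧ ad A D y)).card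

open Classical in
/-- The number of members of `𝒳` whose intersection with `Y` is adjacent to `y`. -/
noncomputable def pc (A : V → V → Prop) (𝒳 : Finset (Finset V)) (Y : Finset V) (y : V) : ℕ :=
  (𝒳.filter (fun B => ad A (B ∩ Y) y)).card

/-- The multiplicity with which `Y` is seen from `y`. -/
noncomputable def av (A : V → V → Prop) (S : Finset V) (𝒳 : Finset (Finset V)) (Y : Finset V)
    (y : V) : ℕ :=
  if y ∈ S then pc A 𝒳 Y y else (nb A Y y).card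

/-- The contribution of `y` to the value of the state `Y`. -/
noncomputable def vl (A : V → V → Prop) (S : Finset V) (𝒞 𝒳 : Finset (Finset V)) (Y : Finset V)
    (y : V) : ℤ :=
  if y ∈ Y then (ic A 𝒞 Y y : ℤ) - 1 else ((av A S 𝒳 Y y + ic A 𝒞 Y y - 1 : ℕ) : ℤ)

/-- The value of the state `Y`. -/
noncomputable def LL (A : V → V → Prop) (S O : Finset V) (𝒞 𝒳 : Finset (Finset V))
    (Y : Finset V) : ℤ :=
  ∑ y ∈ S ∪ O, vl A S 𝒞 𝒳 Y y

open Classical in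
/-- The number of members of `𝒞` adjacent to `Y`. -/
noncomputable def nI (A : V → V → Prop) (𝒞 : Finset (Finset V)) (Y : Finset V) : ℕ :=
  (𝒞.filter (fun D => ∃ x ∈ Y, ad A D x)).card

open Classical in
/-- The number of members of `𝒳` meeting `Y`. -/
noncomputable def nP (𝒳 : Finset (Finset V)) (Y : Finset V) : ℕ :=
  (𝒳.filter (fun B => (B ∩ Y).Nonempty)).card

open Classical in
/-- The members of `𝒞` adjacent to `Y'` and not to `Y`. -/
noncomputable def JJ (A : V → V → Prop) (𝒞 : Finset (Finset V)) (Y Y' : Finset V) :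
    Finset (Finset V) :=
  𝒞.filter (fun D => (∃ x ∈ Y', ad A D x) ∧ ¬ ∃ x ∈ Y, ad A D x)

theorem mem_JJ {A : V → V → Prop} {𝒞 : Finset (Finset V)} {Y Y' D : Finset V} :
    D ∈ JJ A 𝒞 Y Y' ↔ D ∈ 𝒞 ∧ (∃ x ∈ Y', ad A D x) ∧ ¬ ∃ x ∈ Y, ad A D x := by
  classical
  unfold JJ
  rw [Finset.mem_filter]

theorem nI_add {A : V → V → Prop} {𝒞 : Finset (Finset V)} {Y Y' : Finset V} (hY : Y ⊆ Y') :
    nI A 𝒞 Y' = nI A 𝒞 Y + (JJ A 𝒞 Y Y').card := by
  classical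
  unfold nI JJ
  rw [← Finset.card_union_of_disjoint]
  · congr 1
    ext D
    simp only [Finset.mem_union, Finset.mem_filter]
    constructor
    · rintro ⟨h1, h2⟩
      by_cases h3 : ∃ x ∈ Y, ad A D x
      · exact Or.inl ⟨h1, h3⟩
      · exact Or.inr ⟨h1, h2, h3⟩
    · rintro (⟨h1, x, hx, hx2⟩ | ⟨h1, h2, _⟩)
      · exact ⟨h1, x, hY hx, hx2⟩
      · exact ⟨h1, h2⟩
  · rw [Finset.disjoint_left]
    intro D hD hD2
    rw [Finset.mem_filter] at hD hD2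
    exact hD2.2.2 hD.2

open Classical in
theorem ic_add {A : V → V → Prop} {𝒞 : Finset (Finset V)} {Y Y' : Finset V} (hY : Y ⊆ Y')
    (y : V) : ic A 𝒞 Y' y = ic A 𝒞 Y y + ((JJ A 𝒞 Y Y').filter (fun D => ad A D y)).card := by
  unfold ic JJ
  rw [← Finset.card_union_of_disjoint]
  · congr 1
    ext D
    simp only [Finset.mem_union, Finset.mem_filter]
    constructor
    · rintro ⟨h1, h2, h4⟩
      by_cases h3 : ∃ x ∈ Y, ad A D x
      · exact Or.inl ⟨h1, h3, h4⟩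
      · exact Or.inr ⟨⟨h1, h2, h3⟩, h4⟩
    · rintro (⟨h1, ⟨x, hx, hx2⟩, h4⟩ | ⟨⟨h1, h2, _⟩, h4⟩)
      · exact ⟨h1, ⟨x, hY hx, hx2⟩, h4⟩
      · exact ⟨h1, h2, h4⟩
  · rw [Finset.disjoint_left]
    intro D hD hD2
    rw [Finset.mem_filter] at hD hD2
    rw [Finset.mem_filter] at hD2
    exact hD2.1.2.2 hD.2.1

theorem ic_mono {A : V → V → Prop} {𝒞 : Finset (Finset V)} {Y Y' : Finset V} (hY : Y ⊆ Y')
    (y : V) : ic A 𝒞 Y y ≤ ic A 𝒞 Y' y := by
  classical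
  rw [ic_add hY]
  omega

theorem ad_mono {A : V → V → Prop} {Y Y' : Finset V} (hY : Y ⊆ Y') {y : V} (h : ad A Y y) :
    ad A Y' y := by
  obtain ⟨x, hx, hxy⟩ := h
  exact ⟨x, hY hx, hxy⟩

theorem av_mono {A : V → V → Prop} {S : Finset V} {𝒳 : Finset (Finset V)} {Y Y' : Finset V}
    (hY : Y ⊆ Y') (y : V) : av A S 𝒳 Y y ≤ av A S 𝒳 Y' y := by
  classical
  unfold av
  split_ifs
  · unfold pc
    refine Finset.card_le_card fun B hB => ?_
    rw [Finset.mem_filter] at hB ⊢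
    exact ⟨hB.1, ad_mono (Finset.inter_subset_inter_left hY) hB.2⟩
  · refine Finset.card_le_card fun x hx => ?_
    rw [mem_nb] at hx ⊢
    exact ⟨hY hx.1, hx.2⟩

namespace Loc

variable {A : V → V → Prop} {m : ℕ} {S O X C : Finset V} {𝒞 𝒳 : Finset (Finset V)}

theorem av_pos (h : Loc A m S O X C 𝒞 𝒳) {Y : Finset V} (hY : Y ⊆ X) {y : V}
    (hy : ad A Y y) : 1 ≤ av A S 𝒳 Y y := by
  classical
  obtain ⟨x, hx, hxy⟩ := hy
  unfold av
  split_ifs
  · unfold pc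
    obtain ⟨B, hB, hxB⟩ := (h.dX.mem x).mp (hY hx)
    exact Finset.card_pos.mpr ⟨B, Finset.mem_filter.mpr ⟨hB, x, Finset.mem_inter.mpr ⟨hxB, hx⟩,
      hxy⟩⟩
  · exact Finset.card_pos.mpr ⟨x, mem_nb.mpr ⟨hx, h.symm _ _ hxy⟩⟩

theorem av_zero (h : Loc A m S O X C 𝒞 𝒳) {Y : Finset V} {y : V}
    (hy : ¬ ad A Y y) : av A S 𝒳 Y y = 0 := by
  classical
  unfold av
  split_ifs
  · unfold pc
    rw [Finset.card_eq_zero, Finset.filter_eq_empty_iff]
    intro B _ hB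
    exact hy (ad_mono Finset.inter_subset_right hB)
  · rw [Finset.card_eq_zero, Finset.eq_empty_iff_forall_notMem]
    intro x hx
    rw [mem_nb] at hx
    exact hy ⟨x, hx.1, h.symm _ _ hx.2⟩

/-- A member of `X` is adjacent to at most one piece. -/
theorem av_le_one (h : Loc A m S O X C 𝒞 𝒳) {Y : Finset V} {x : V} (hx : x ∈ X) :
    av A S 𝒳 Y x ≤ 1 := by
  classical
  unfold av
  rw [if_pos (h.XS hx)]
  unfold pc
  rw [Finset.card_le_one]
  intro B hB B' hB'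
  rw [Finset.mem_filter] at hB hB'
  obtain ⟨B0, hB0, hxB0⟩ := (h.dX.mem x).mp hx
  have key : ∀ B ∈ 𝒳, ad A (B ∩ Y) x → B = B0 := by
    intro B hB hBx
    by_contra hne
    obtain ⟨y, hy, hyx⟩ := hBx
    exact (h.dX.sep B hB B0 hB0 hne y (Finset.mem_inter.mp hy).1 x hxB0).2 hyx
  rw [key B hB.1 hB.2, key B' hB'.1 hB'.2]

theorem arith1 (a a' i j : ℕ) (haa : a ≤ a') (e : ℕ) (he : e ≤ 1) (he2 : e = 1 → a + 1 ≤ a' ∧ 1 ≤ a + i)
    (j' : ℕ) (hj : j' ≤ j) (hj2 : 1 ≤ j' → 1 ≤ a') :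
    ((j' : ℤ) + e) ≤ ((a' + (i + j) - 1 : ℕ) : ℤ) - ((a + i - 1 : ℕ) : ℤ) := by
  rcases Nat.eq_zero_or_pos e with h0 | h0
  · subst h0
    rcases Nat.eq_zero_or_pos j' with h1 | h1
    · subst h1
      push_cast
      omega
    · have := hj2 h1
      omega
  · have h1 : e = 1 := by omega
    have h2 := he2 h1
    subst h1
    omega

open Classical in
/-- The increment of the value. -/
theorem block (h : Loc A m S O X C 𝒞 𝒳) {Y Y' : Finset V} (hY : Y ⊆ Y') (hY' : Y' ⊆ X)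
    (E : Finset V) (hE : ∀ y ∈ E, y ∈ S ∪ O ∧ y ∉ Y' ∧ av A S 𝒳 Y y + 1 ≤ av A S 𝒳 Y' y ∧
      1 ≤ av A S 𝒳 Y y + ic A 𝒞 Y y)
    (n : ℕ) (hn : ∀ D ∈ JJ A 𝒞 Y Y', n ≤ ((S ∪ O).filter
      (fun y => y ∉ Y' ∧ ad A Y' y ∧ ad A D y)).card) :
    (n : ℤ) * (JJ A 𝒞 Y Y').card + E.card +
      ∑ y ∈ Y' \ Y, (vl A S 𝒞 𝒳 Y' y - vl A S 𝒞 𝒳 Y y) ≤
      LL A S O 𝒞 𝒳 Y' - LL A S O 𝒞 𝒳 Y := by
  have hYS : Y' ⊆ S ∪ O := hY'.trans (h.XS.trans Finset.subset_union_left)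
  unfold LL
  rw [← Finset.sum_sub_distrib, ← Finset.sum_sdiff hYS, ← Finset.sum_sdiff hY]
  have h1 : 0 ≤ ∑ y ∈ Y, (vl A S 𝒞 𝒳 Y' y - vl A S 𝒞 𝒳 Y y) := by
    refine Finset.sum_nonneg fun y hy => ?_
    unfold vl
    rw [if_pos (hY hy), if_pos hy]
    have := ic_mono (A := A) (𝒞 := 𝒞) hY y
    omega
  have h2 : ∀ y ∈ (S ∪ O) \ Y', (((if ad A Y' y then ((JJ A 𝒞 Y Y').filter
      (fun D => ad A D y)).card else 0 : ℕ) : ℤ) + ((if y ∈ E then 1 else 0 : ℕ) : ℤ)) ≤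
      vl A S 𝒞 𝒳 Y' y - vl A S 𝒞 𝒳 Y y := by
    intro y hy
    rw [Finset.mem_sdiff] at hy
    unfold vl
    rw [if_neg hy.2, if_neg (fun h' => hy.2 (hY h')), ic_add hY]
    refine arith1 _ _ _ _ (av_mono hY y) _ (by split_ifs <;> omega) ?_ _ (by split_ifs <;> omega) ?_
    · intro he
      have hyE : y ∈ E := by
        by_contra h'
        rw [if_neg h'] at he
        omega
      exact ⟨(hE y hyE).2.2.1, (hE y hyE).2.2.2⟩
    · intro he
      have hyE : ad A Y' y := by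
        by_contra h'
        rw [if_neg h'] at he
        omega
      exact h.av_pos hY' hyE
  have h3 := Finset.sum_le_sum h2
  rw [Finset.sum_add_distrib] at h3
  have h4 : ∑ y ∈ (S ∪ O) \ Y', ((if y ∈ E then 1 else 0 : ℕ) : ℤ) = E.card := by
    rw [← Nat.cast_sum, ← Finset.sum_filter, ← Finset.card_eq_sum_ones]
    congr 2
    ext y
    rw [Finset.mem_filter, Finset.mem_sdiff]
    exact ⟨fun h' => h'.2, fun h' => ⟨⟨(hE y h').1, (hE y h').2.1⟩, h'⟩⟩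
  have h5 : ∑ y ∈ (S ∪ O) \ Y', ((if ad A Y' y then ((JJ A 𝒞 Y Y').filter
      (fun D => ad A D y)).card else 0 : ℕ) : ℤ) = ∑ D ∈ JJ A 𝒞 Y Y', (((S ∪ O).filter
      (fun y => y ∉ Y' ∧ ad A Y' y ∧ ad A D y)).card : ℤ) := by
    rw [← Nat.cast_sum, ← Nat.cast_sum]
    congr 1
    have e1 : ∀ y ∈ (S ∪ O) \ Y', (if ad A Y' y then ((JJ A 𝒞 Y Y').filter
      (fun D => ad A D y)).card else 0 : ℕ) = ∑ D ∈ JJ A 𝒞 Y Y',
        (if ad A Y' y ∧ ad A D y then 1 else 0) := by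
      intro y _
      split_ifs with hy
      · rw [Finset.card_eq_sum_ones, Finset.sum_filter]
        refine Finset.sum_congr rfl fun D _ => ?_
        simp [hy]
      · symm
        refine Finset.sum_eq_zero fun D _ => ?_
        simp [hy]
    rw [Finset.sum_congr rfl e1, Finset.sum_comm]
    refine Finset.sum_congr rfl fun D _ => ?_
    rw [← Finset.sum_filter, ← Finset.card_eq_sum_ones]
    congr 1
    ext y
    simp only [Finset.mem_filter, Finset.mem_sdiff]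
    tauto
  rw [h4, h5] at h3
  have h6 : (n : ℤ) * (JJ A 𝒞 Y Y').card ≤ ∑ D ∈ JJ A 𝒞 Y Y', (((S ∪ O).filter
      (fun y => y ∉ Y' ∧ ad A Y' y ∧ ad A D y)).card : ℤ) := by
    have := Finset.card_nsmul_le_sum (JJ A 𝒞 Y Y') (fun D => (((S ∪ O).filter
      (fun y => y ∉ Y' ∧ ad A Y' y ∧ ad A D y)).card : ℤ)) (n : ℤ) (fun D hD => by
        exact_mod_cast hn D hD)
    rw [nsmul_eq_mul] at this
    linarith
  linarith

end Loc

end Pool.Agent.MP19e880.G2
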